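import Mathlib

/-!
# Online matching with stochastic rewards: the model
-/

set_option autoImplicit false

open Finset

namespace Pool.Agent.W991.Stoch

/-- An arriving online vertex, when there are `m` offline vertices: the set of its neighbours and
the success probabilities of its edges (`0` off the set of neighbours). -/
structure Arrival (m : ℕ) where
  nbr : Finset (Fin m)
  prob : Fin m → ℝ
  prob_nonneg : ∀ v, 0 ≤ prob v
  prob_le_one : ∀ v, prob v ≤ 1
  prob_off : ∀ v, v ∉ nbr → prob v = 0

/-- What is known about a past online vertex: its neighbours and edge probabilities, the offline
vertex it was matched to (if any), and whether this match was successful. -/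
structure Record (m : ℕ) where
  arrival : Arrival m
  partner : Option (Fin m)
  success : Bool

/-- A deterministic policy: from the records of the past (latest first) and the current arrival it
chooses an offline vertex, or none. -/
abbrev Policy (m : ℕ) := List (Record m) → Arrival m → Option (Fin m)

/-- The expected number of successful matches of the policy `π` on the arrivals that are still to
come, when `h` is the past and `A` is the set of available offline vertices. A match with an
available neighbour `v` succeeds with the probability of the edge; then `v` is consumed and a reward
of `1` is collected. Otherwise `v` stays available. A choice which is not an available neighbour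
counts as no match. -/
noncomputable def reward {m : ℕ} (π : Policy m) :
    List (Record m) → Finset (Fin m) → List (Arrival m) → ℝ
  | _, _, [] => 0
  | h, A, a :: I =>
    match π h a with
    | none => reward π (⟨a, none, false⟩ :: h) A I
    | some v =>
      if v ∈ A ∧ v ∈ a.nbr then
        a.prob v * (1 + reward π (⟨a, some v, true⟩ :: h) (A.erase v) I) +
          (1 - a.prob v) * reward π (⟨a, some v, false⟩ :: h) A I
      else reward π (⟨a, none, false⟩ :: h) A I

/-- The offline benchmark of the instance `I`: the largest expected reward of a policy; the policy
is chosen for the instance, which it therefore knows, but it sees the outcome of a match only after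
making it. -/
noncomputable def opt {m : ℕ} (I : List (Arrival m)) : ℝ :=
  ⨆ π : Policy m, reward π [] univ I

/-- A randomised online algorithm: for every number `m` of offline vertices a finite probability
space of seeds, and for every seed a deterministic policy. -/
structure RandomizedAlgorithm where
  Seed : ℕ → Type
  [fintypeSeed : ∀ m, Fintype (Seed m)]
  weight : ∀ m, Seed m → ℝ
  weight_nonneg : ∀ m s, 0 ≤ weight m s
  weight_sum : ∀ m, ∑ s, weight m s = 1
  policy : ∀ m, Seed m → Policy m

attribute [instance] RandomizedAlgorithm.fintypeSeed

/-- The expected reward of a randomised online algorithm. -/
noncomputable def RandomizedAlgorithm.expectedReward (A : RandomizedAlgorithm) {m : ℕ}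
    (I : List (Arrival m)) : ℝ :=
  ∑ s, A.weight m s * reward (A.policy m s) [] univ I

end Pool.Agent.W991.Stoch
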