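import Pool.Agent.W991.Stoch.Bracket
import Pool.Agent.W991.Stoch.Defs

/-!
# Online matching with stochastic rewards: the algorithm and its analysis
-/

set_option autoImplicit false

open Finset

namespace Pool.Agent.W991.Stoch

/-! ### The algorithm -/

variable {m : ℕ}

/-- the weights of the offline vertices -/
noncomputable def wts (b : Fin m → Bool) : Fin m → ℝ := fun x => if b x then ws else wk

/-- the available vertices -/
def avail (h : List (Record m)) : Finset (Fin m) :=
  univ.filter fun v => ∀ r ∈ h, ¬ (r.partner = some v ∧ r.success = true)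

/-- the greedy policy with weights -/
noncomputable def pol (w : Fin m → ℝ) : Policy m := fun h a =>
  match pick (fun x => a.prob x * w x) (avail h) with
  | none => none
  | some v => if v ∈ a.nbr then some v else none

/-- the value of the weighted greedy process -/
noncomputable def G (w : Fin m → ℝ) : Finset (Fin m) → List (Arrival m) → ℝ
  | _, [] => 0
  | Z, a :: I =>
    match pick (fun x => a.prob x * w x) Z with
    | none => G w Z I
    | some v => a.prob v * (1 + G w (Z.erase v) I) + (1 - a.prob v) * G w Z I

lemma avail_nil : avail ([] : List (Record m)) = univ := by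
  simp [avail]

lemma avail_none (h : List (Record m)) (a : Arrival m) :
    avail (⟨a, none, false⟩ :: h) = avail h := by
  ext v
  simp [avail]

lemma avail_fail (h : List (Record m)) (a : Arrival m) (v : Fin m) :
    avail (⟨a, some v, false⟩ :: h) = avail h := by
  ext u
  simp [avail]

lemma avail_success (h : List (Record m)) (a : Arrival m) (v : Fin m) :
    avail (⟨a, some v, true⟩ :: h) = (avail h).erase v := by
  ext u
  simp only [avail, Finset.mem_filter, Finset.mem_univ, true_and, Finset.mem_erase,
    List.mem_cons, forall_eq_or_imp, Option.some.injEq, and_true]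
  constructor
  · rintro ⟨h1, h2⟩
    exact ⟨fun e => h1 e.symm, h2⟩
  · rintro ⟨h1, h2⟩
    exact ⟨fun e => h1 e.symm, h2⟩

lemma reward_pol (w : Fin m → ℝ) (I : List (Arrival m)) (h : List (Record m)) :
    reward (pol w) h (avail h) I = G w (avail h) I := by
  induction I generalizing h with
  | nil => rfl
  | cons a I ih =>
    rw [reward, G]
    cases hp : pick (fun x => a.prob x * w x) (avail h) with
    | none =>
      have : pol w h a = none := by simp [pol, hp]
      rw [this]
      simp only
      have := ih (⟨a, none, false⟩ :: h)
      rw [avail_none] at this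
      exact this
    | some v =>
      by_cases hv : v ∈ a.nbr
      · have : pol w h a = some v := by simp [pol, hp, hv]
        rw [this]
        simp only
        rw [if_pos ⟨pick_mem hp, hv⟩]
        have h1 := ih (⟨a, some v, true⟩ :: h)
        have h2 := ih (⟨a, some v, false⟩ :: h)
        rw [avail_success] at h1
        rw [avail_fail] at h2
        rw [h1, h2]
      · have : pol w h a = none := by simp [pol, hp, hv]
        rw [this]
        simp only
        have h1 := ih (⟨a, none, false⟩ :: h)
        rw [avail_none] at h1
        rw [h1, a.prob_off v hv]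
        ring

/-- the probabilities as a function of time -/
noncomputable def qs (I : List (Arrival m)) : ℕ → Fin m → ℝ :=
  fun t v => (I[t]?).elim 0 (fun a => a.prob v)

lemma qs_prb (I : List (Arrival m)) : ∀ t, Prb (qs I t) := by
  intro t v
  unfold qs
  cases I[t]? with
  | none => simp
  | some a => exact ⟨a.prob_nonneg v, a.prob_le_one v⟩

lemma qs_zero (a : Arrival m) (I : List (Arrival m)) : qs (a :: I) 0 = a.prob := by
  funext v
  simp [qs]

lemma qs_succ (a : Arrival m) (I : List (Arrival m)) (t : ℕ) :
    qs (a :: I) (t + 1) = qs I t := by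
  funext v
  simp [qs]

section greedy

variable {V : Type} [Fintype V] [DecidableEq V] [LinearOrder V]

/-- transitions of the greedy process -/
noncomputable def KG (q : ℕ → V → ℝ) (w : V → ℝ) (t : ℕ) (Z : Finset V) (ξ : V → Bool) :
    Finset V := upd Z (pick (cs q w t) Z) ξ

/-- expected gain -/
noncomputable def gain (q : ℕ → V → ℝ) (w : V → ℝ) (t : ℕ) (Z : Finset V) : ℝ :=
  (pick (cs q w t) Z).elim 0 (q t)

lemma rowE_sum {ι : Type} (s : Finset ι) (q : V → ℝ) (F : ι → (V → Bool) → ℝ) :
    rowE q (fun ξ => ∑ i ∈ s, F i ξ) = ∑ i ∈ s, rowE q (F i) := by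
  classical
  induction s using Finset.induction_on with
  | empty => simpa using rowE_const q 0
  | insert a s ha ih =>
    simp only [Finset.sum_insert ha]
    rw [rowE_add, ih]

/-- the potential -/
noncomputable def Psi (w : V → ℝ) (Z : Finset V) : ℝ := ∑ v, if v ∈ Z then 0 else (1 - w v)

lemma Psi_erase (w : V → ℝ) (Z : Finset V) (a : V) (ha : a ∈ Z) :
    Psi w (Z.erase a) = Psi w Z + (1 - w a) := by
  unfold Psi
  have h1 : ∀ v, (if v ∈ Z.erase a then (0 : ℝ) else 1 - w v) =
      (if v ∈ Z then 0 else 1 - w v) + (if v = a then 1 - w v else 0) := by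
    intro v
    by_cases hv : v = a
    · subst hv; simp [ha]
    · simp [hv]
  simp only [h1]
  rw [Finset.sum_add_distrib]
  simp

lemma split (q : ℕ → V → ℝ) (w : V → ℝ) (n : ℕ) :
    ∑ t ∈ range n, Ex q (KG q w) univ t (gain q w t) =
      ∑ t ∈ range n, Ex q (KG q w) univ t (val (cs q w t)) + Ex q (KG q w) univ n (Psi w) := by
  induction n with
  | zero => simp [Psi]
  | succ n ih =>
    rw [Finset.sum_range_succ, Finset.sum_range_succ, ih, Ex_succ]
    have h : ∀ Z, rowE (q n) (fun ξ => Psi w (KG q w n Z ξ)) =
        Psi w Z + (gain q w n Z - val (cs q w n) Z) := by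
      intro Z
      unfold KG gain val
      cases hp : pick (cs q w n) Z with
      | none => simp [rowE_const]
      | some a =>
        have hc := rowE_coord (q n) a (fun b => if b then Psi w (Z.erase a) else Psi w Z)
        simp only [upd_some, Option.elim_some]
        have e : (fun ξ : V → Bool => Psi w (if ξ a = true then Z.erase a else Z)) =
            fun ξ => if ξ a = true then Psi w (Z.erase a) else Psi w Z := by
          funext ξ
          split_ifs <;> rfl
        rw [e, hc]
        simp only [if_true, Bool.false_eq_true, if_false]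
        rw [Psi_erase w Z a (pick_mem hp)]
        unfold cs
        ring
    simp only [h]
    rw [Ex_add, Ex_sub]
    ring

end greedy

lemma G_eq (w : Fin m → ℝ) (I : List (Arrival m)) (Z : Finset (Fin m)) :
    G w Z I = ∑ t ∈ range I.length, Ex (qs I) (KG (qs I) w) Z t (gain (qs I) w t) := by
  induction I generalizing Z with
  | nil => simp [G]
  | cons a I ih =>
    rw [List.length_cons, Finset.sum_range_succ', G]
    have hshift : ∀ t, Ex (qs (a :: I)) (KG (qs (a :: I)) w) Z (t + 1)
        (gain (qs (a :: I)) w (t + 1)) =
        rowE a.prob (fun ξ => Ex (qs I) (KG (qs I) w)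
          (upd Z (pick (fun x => a.prob x * w x) Z) ξ) t (gain (qs I) w t)) := by
      intro t
      rw [Ex_front, qs_zero]
      have h1 : (fun s => qs (a :: I) (s + 1)) = qs I := by
        funext s; exact qs_succ a I s
      have h2 : (fun s => KG (qs (a :: I)) w (s + 1)) = KG (qs I) w := by
        funext s Z ξ
        unfold KG cs
        rw [qs_succ]
      have h3 : gain (qs (a :: I)) w (t + 1) = gain (qs I) w t := by
        funext Z
        unfold gain cs
        rw [qs_succ]
      have h4 : ∀ ξ, KG (qs (a :: I)) w 0 Z ξ =
          upd Z (pick (fun x => a.prob x * w x) Z) ξ := by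
        intro ξ
        unfold KG cs
        rw [qs_zero]
      rw [h1, h2, h3]
      simp only [h4]
    simp only [hshift]
    rw [← rowE_sum]
    simp only [← ih]
    have h0 : Ex (qs (a :: I)) (KG (qs (a :: I)) w) Z 0 (gain (qs (a :: I)) w 0) =
        (pick (fun x => a.prob x * w x) Z).elim 0 a.prob := by
      rw [Ex_zero]
      unfold gain cs
      rw [qs_zero]
    rw [h0]
    cases hp : pick (fun x => a.prob x * w x) Z with
    | none => simp [rowE_const]
    | some v =>
      simp only [upd_some, Option.elim_some]
      have hc := rowE_coord a.prob v (fun b => if b then G w (Z.erase v) I else G w Z I)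
      have e : (fun ξ : Fin m → Bool => G w (if ξ v = true then Z.erase v else Z) I) =
          fun ξ => if ξ v = true then G w (Z.erase v) I else G w Z I := by
        funext ξ
        split_ifs <;> rfl
      rw [e, hc]
      simp only [if_true, Bool.false_eq_true, if_false]
      ring

/-- every policy gives a feasible fractional matching -/
lemma feasible (π : Policy m) (I : List (Arrival m)) (h : List (Record m))
    (A : Finset (Fin m)) : ∃ x : ℕ → Fin m → ℝ,
      (∀ t v, 0 ≤ x t v) ∧ (∀ t, ∑ v, x t v ≤ 1) ∧
      (∀ v, ∑ t ∈ range I.length, x t v * qs I t v ≤ if v ∈ A then 1 else 0) ∧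
      reward π h A I = ∑ v, ∑ t ∈ range I.length, x t v * qs I t v := by
  induction I generalizing h A with
  | nil =>
    refine ⟨fun _ _ => 0, by simp, by simp, ?_, by simp [reward]⟩
    intro v
    simp only [List.length_nil, Finset.range_zero, Finset.sum_empty]
    split_ifs <;> norm_num
  | cons a I ih =>
    have skip : ∃ x : ℕ → Fin m → ℝ,
      (∀ t v, 0 ≤ x t v) ∧ (∀ t, ∑ v, x t v ≤ 1) ∧
      (∀ v, ∑ t ∈ range (a :: I).length, x t v * qs (a :: I) t v ≤ if v ∈ A then 1 else 0) ∧
      reward π (⟨a, none, false⟩ :: h) A I =
        ∑ v, ∑ t ∈ range (a :: I).length, x t v * qs (a :: I) t v := by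
      obtain ⟨x, hx0, hx1, hx2, hx3⟩ := ih (⟨a, none, false⟩ :: h) A
      have e : ∀ v, ∑ t ∈ range (a :: I).length,
          (fun t v => if t = 0 then (0 : ℝ) else x (t - 1) v) t v * qs (a :: I) t v =
          ∑ t ∈ range I.length, x t v * qs I t v := by
        intro v
        rw [List.length_cons, Finset.sum_range_succ']
        simp only [Nat.add_sub_cancel, qs_succ]
        simp
      refine ⟨fun t v => if t = 0 then 0 else x (t - 1) v, ?_, ?_, ?_, ?_⟩
      · intro t v
        simp only
        split_ifs
        · exact le_refl _
        · exact hx0 _ _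
      · intro t
        by_cases ht : t = 0
        · simp [ht]
        · simp only [if_neg ht]
          exact hx1 _
      · intro v
        rw [e v]
        exact hx2 v
      · rw [hx3]
        exact Finset.sum_congr rfl fun v _ => (e v).symm
    rw [reward]
    cases hp : π h a with
    | none => simpa only using skip
    | some v =>
      simp only
      by_cases hv : v ∈ A ∧ v ∈ a.nbr
      · rw [if_pos hv]
        obtain ⟨x1, hx0, hx1, hx2, hx3⟩ := ih (⟨a, some v, true⟩ :: h) (A.erase v)
        obtain ⟨x2, hy0, hy1, hy2, hy3⟩ := ih (⟨a, some v, false⟩ :: h) A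
        have p0 := a.prob_nonneg v
        have p1 := a.prob_le_one v
        set x : ℕ → Fin m → ℝ := fun t u =>
          if t = 0 then (if u = v then 1 else 0)
          else a.prob v * x1 (t - 1) u + (1 - a.prob v) * x2 (t - 1) u with hx
        have e : ∀ u, ∑ t ∈ range (a :: I).length, x t u * qs (a :: I) t u =
            (if u = v then a.prob v else 0) +
              (a.prob v * (∑ t ∈ range I.length, x1 t u * qs I t u) +
              (1 - a.prob v) * (∑ t ∈ range I.length, x2 t u * qs I t u)) := by
          intro u
          rw [List.length_cons, Finset.sum_range_succ', add_comm]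
          congr 1
          · simp only [hx, if_true, qs_zero]
            split_ifs with h
            · rw [h, one_mul]
            · rw [zero_mul]
          · rw [Finset.mul_sum, Finset.mul_sum, ← Finset.sum_add_distrib]
            refine Finset.sum_congr rfl fun t _ => ?_
            simp only [hx, Nat.add_sub_cancel, qs_succ, Nat.succ_ne_zero, if_false,
              Nat.add_eq_zero_iff, one_ne_zero, and_false]
            ring
        refine ⟨x, ?_, ?_, ?_, ?_⟩
        · intro t u
          simp only [hx]
          split_ifs
          · exact zero_le_one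
          · exact le_refl _
          · exact add_nonneg (mul_nonneg p0 (hx0 _ _)) (mul_nonneg (by linarith) (hy0 _ _))
        · intro t
          by_cases ht : t = 0
          · simp [hx, ht]
          · simp only [hx, if_neg ht]
            rw [Finset.sum_add_distrib, ← Finset.mul_sum, ← Finset.mul_sum]
            have := hx1 (t - 1)
            have := hy1 (t - 1)
            nlinarith
        · intro u
          rw [e u]
          have g1 := hx2 u
          have g2 := hy2 u
          by_cases huv : u = v
          · subst huv
            rw [if_pos rfl, if_pos hv.1]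
            rw [if_neg (Finset.notMem_erase u A)] at g1
            rw [if_pos hv.1] at g2
            nlinarith
          · rw [if_neg huv]
            by_cases huA : u ∈ A
            · rw [if_pos huA]
              rw [if_pos (Finset.mem_erase.mpr ⟨huv, huA⟩)] at g1
              rw [if_pos huA] at g2
              nlinarith
            · rw [if_neg huA]
              rw [if_neg (fun h => huA (Finset.mem_of_mem_erase h))] at g1
              rw [if_neg huA] at g2
              nlinarith
        · rw [hx3, hy3]
          simp only [e]
          rw [Finset.sum_add_distrib, Finset.sum_add_distrib, ← Finset.mul_sum, ← Finset.mul_sum]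
          simp
          ring
      · rw [if_neg hv]
        exact skip

/-- the algorithm: independent random weights, then greedy -/
noncomputable def algo : RandomizedAlgorithm where
  Seed m := Fin m → Bool
  weight _ s := wtRow (fun _ => 1 / 2) s
  weight_nonneg _ s := wtRow_nonneg (fun _ => by norm_num) s
  weight_sum _ := sum_wtRow _
  policy _ s := pol (wts s)

lemma algo_reward (I : List (Arrival m)) :
    algo.expectedReward I = rowE (fun _ => 1 / 2) (fun b : Fin m → Bool => G (wts b) univ I) := by
  unfold RandomizedAlgorithm.expectedReward rowE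
  refine Finset.sum_congr rfl fun b _ => ?_
  have := reward_pol (wts b) I []
  rw [avail_nil] at this
  show wtRow _ b * reward (pol (wts b)) [] univ I = _
  rw [this]

lemma wts_update_true (b : Fin m → Bool) (v : Fin m) :
    wts (Function.update b v true) = Function.update (wts b) v ws := by
  funext x
  by_cases hx : x = v
  · subst hx; simp [wts]
  · simp [wts, Function.update_of_ne hx]

lemma wts_update_false (b : Fin m → Bool) (v : Fin m) :
    wts (Function.update b v false) = Function.update (wts b) v wk := by
  funext x
  by_cases hx : x = v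
  · subst hx; simp [wts]
  · simp [wts, Function.update_of_ne hx]

theorem algo_ge (I : List (Arrival m)) (x : ℕ → Fin m → ℝ) (hx0 : ∀ t v, 0 ≤ x t v)
    (hx1 : ∀ t, ∑ v, x t v ≤ 1)
    (hx2 : ∀ v, ∑ t ∈ range I.length, x t v * qs I t v ≤ 1) :
    (1 / 2 + 1 / 2000) * ∑ v, ∑ t ∈ range I.length, x t v * qs I t v ≤
      algo.expectedReward I := by
  classical
  rw [algo_reward]
  set q := qs I with hqs
  set n := I.length with hn
  have hq := qs_prb I
  have hwts : ∀ (b : Fin m → Bool) x, wts b x = ws ∨ wts b x = wk := by
    intro b x
    unfold wts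
    split_ifs <;> simp
  have hpos : ∀ (b : Fin m → Bool) x, 0 ≤ wts b x := by
    intro b x
    rcases hwts b x with h | h <;> rw [h] <;> norm_num [ws, wk]
  -- the lower bound for one vector of levels
  let F : Fin m → (Fin m → ℝ) → ℝ := fun v w =>
    ∑ t ∈ range n, x t v * E q w v t (fun s => val (cs q w t) s.Z) +
      (1 - w v) * (1 - aa q w v n)
  have hG : ∀ b : Fin m → Bool, ∑ v, F v (wts b) ≤ G (wts b) univ I := by
    intro b
    rw [G_eq, split]
    have hmarg : ∀ (v : Fin m) (t : ℕ) (g : Finset (Fin m) → ℝ),
        E q (wts b) v t (fun s => g s.Z) = Ex q (KG q (wts b)) univ t g := by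
      intro v t g
      exact Ex_map q (K q (wts b) v) (z0 v) (KG q (wts b)) (fun s => s.Z)
        (fun _ _ _ => rfl) t g
    have h1 : ∑ v, F v (wts b) = ∑ v, ∑ t ∈ range n, x t v *
          Ex q (KG q (wts b)) univ t (val (cs q (wts b) t)) +
        ∑ v, (1 - wts b v) * (1 - aa q (wts b) v n) := by
      rw [← Finset.sum_add_distrib]
      refine Finset.sum_congr rfl fun v _ => ?_
      show _ + _ = _
      congr 1
      refine Finset.sum_congr rfl fun t _ => ?_
      rw [hmarg v t (val (cs q (wts b) t))]
    have h2 : ∑ v, (1 - wts b v) * (1 - aa q (wts b) v n) =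
        Ex q (KG q (wts b)) univ n (Psi (wts b)) := by
      unfold Psi
      rw [Ex_sum]
      refine Finset.sum_congr rfl fun v _ => ?_
      rw [← dead hq n, ← E_smul]
      have := hmarg v n (fun Z => if v ∈ Z then 0 else (1 - wts b v))
      rw [← this]
      refine E_congr hq n fun s _ => ?_
      split_ifs <;> ring
    rw [h1, h2]
    have h3 : ∑ v, ∑ t ∈ range n, x t v *
          Ex q (KG q (wts b)) univ t (val (cs q (wts b) t)) ≤
        ∑ t ∈ range n, Ex q (KG q (wts b)) univ t (val (cs q (wts b) t)) := by
      rw [Finset.sum_comm]
      refine Finset.sum_le_sum fun t _ => ?_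
      rw [← Finset.sum_mul]
      have hc0 : ∀ x, 0 ≤ cs q (wts b) t x := fun x => mul_nonneg (hq t x).1 (hpos b x)
      have hv : 0 ≤ Ex q (KG q (wts b)) univ t (val (cs q (wts b) t)) := by
        have := Ex_mono (Inv := fun _ => True) q (KG q (wts b)) univ hq trivial
          (fun _ _ _ _ => trivial) t (f := fun _ => 0) (g := val (cs q (wts b) t))
          (fun Z _ => val_nonneg hc0 Z)
        rwa [Ex_const] at this
      have := mul_le_mul_of_nonneg_right (hx1 t) hv
      linarith
    linarith
  have hhalf : Prb (fun _ : Fin m => (1 / 2 : ℝ)) := fun _ => by norm_num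
  refine le_trans ?_ (rowE_mono hhalf hG)
  rw [rowE_sum, Finset.mul_sum]
  refine Finset.sum_le_sum fun v _ => ?_
  rw [rowE_resample _ v]
  have hc := rowE_const (fun _ : Fin m => (1 / 2 : ℝ))
    ((1 / 2 + 1 / 2000) * ∑ t ∈ range n, x t v * q t v)
  rw [← hc]
  refine rowE_mono hhalf fun b => ?_
  rw [wts_update_true, wts_update_false]
  have hx1' : ∀ t, x t v ≤ 1 := fun t =>
    le_trans (Finset.single_le_sum (fun u _ => hx0 t u) (Finset.mem_univ v)) (hx1 t)
  have hb := bracket hq (wts b) (hwts b) v n (fun t => x t v) (fun t => hx0 t v) hx1' (hx2 v)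
  have e1 : Function.update (wts b) v ws v = ws := Function.update_self _ _ _
  have e2 : Function.update (wts b) v wk v = wk := Function.update_self _ _ _
  show _ ≤ 1 / 2 * (_ + (1 - Function.update (wts b) v ws v) * _) +
    (1 - 1 / 2) * (_ + (1 - Function.update (wts b) v wk v) * _)
  rw [e1, e2]
  linarith

theorem main (m : ℕ) (I : List (Arrival m)) :
    (1 / 2 + 1 / 2000) * opt I ≤ algo.expectedReward I := by
  have h : opt I ≤ algo.expectedReward I / (1 / 2 + 1 / 2000) := by
    unfold opt
    have : Nonempty (Policy m) := ⟨fun _ _ => none⟩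
    refine ciSup_le fun π => ?_
    obtain ⟨x, hx0, hx1, hx2, hx3⟩ := feasible π I [] univ
    rw [hx3, le_div_iff₀ (by norm_num), mul_comm]
    refine algo_ge I x hx0 hx1 fun v => ?_
    have := hx2 v
    rwa [if_pos (Finset.mem_univ v)] at this
  rw [le_div_iff₀ (by norm_num)] at h
  linarith

end Pool.Agent.W991.Stoch
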