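import Pool.Agent.W991.Stoch.Chain

/-!
# The inequalities for the coupled chain
-/

set_option autoImplicit false
set_option linter.unusedSectionVars false

open Finset

namespace Pool.Agent.W991.Stoch

variable {V : Type} [Fintype V] [DecidableEq V] [LinearOrder V]

variable (q : ℕ → V → ℝ) (w : V → ℝ) (v : V)

/-- probability that `v` is still there -/
noncomputable def aa (t : ℕ) : ℝ := E q w v t (fun s => s.S)

/-- probability that `v` is attempted at time `t` -/
noncomputable def ff (t : ℕ) : ℝ :=
  E q w v t (fun s => if pick (cs q w t) (insert v s.X) = some v then s.S else 0)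

/-- probability that without `v` the value at time `t` is smaller than `θ` -/
noncomputable def gg (t : ℕ) (θ : ℝ) : ℝ :=
  E q w v t (fun s => if val (cs q w t) s.Y < θ then 1 else 0)

/-- probability that `v` is gone and without `v` the value at time `t` is at least `θ` -/
noncomputable def tt (t : ℕ) (θ : ℝ) : ℝ :=
  E q w v t (fun s => (1 - s.S) * (1 - if val (cs q w t) s.Y < θ then 1 else 0))

variable {q w v}

lemma aa_zero : aa q w v 0 = 1 := rfl

lemma aa_succ (hq : ∀ t, Prb (q t)) (t : ℕ) :
    aa q w v (t + 1) = aa q w v t - q t v * ff q w v t := by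
  unfold aa ff
  rw [E_succ, ← E_smul, ← E_sub]
  refine E_congr hq t fun s _ => ?_
  have : ∀ ξ, (K q w v t s ξ).S =
      if pick (cs q w t) (insert v s.X) = some v then s.S * (1 - q t v) else s.S := fun _ => rfl
  simp only [this]
  rw [rowE_const]
  split_ifs <;> ring

lemma aa_nonneg (hq : ∀ t, Prb (q t)) (t : ℕ) : 0 ≤ aa q w v t := by
  have := E_mono (w := w) (v := v) hq t (f := fun _ => 0) (g := fun s => s.S) (fun s hs => hs.h0)
  rwa [E_const] at this

lemma aa_le_one (hq : ∀ t, Prb (q t)) (t : ℕ) : aa q w v t ≤ 1 := by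
  have := E_mono (w := w) (v := v) hq t (f := fun s => s.S) (g := fun _ => 1) (fun s hs => hs.h1)
  rwa [E_const] at this

lemma ff_nonneg (hq : ∀ t, Prb (q t)) (t : ℕ) : 0 ≤ ff q w v t := by
  have := E_mono (w := w) (v := v) hq t (f := fun _ => 0)
    (g := fun s => if pick (cs q w t) (insert v s.X) = some v then s.S else 0) (fun s hs => by
      split_ifs
      · exact hs.h0
      · exact le_refl _)
  rwa [E_const] at this

lemma ff_le_one (hq : ∀ t, Prb (q t)) (t : ℕ) : ff q w v t ≤ 1 := by
  have := E_mono (w := w) (v := v) hq t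
    (f := fun s => if pick (cs q w t) (insert v s.X) = some v then s.S else 0)
    (g := fun _ => 1) (fun s hs => by
      split_ifs
      · exact hs.h1
      · exact zero_le_one)
  rwa [E_const] at this

lemma tt_nonneg (hq : ∀ t, Prb (q t)) (t : ℕ) (θ : ℝ) : 0 ≤ tt q w v t θ := by
  have := E_mono (w := w) (v := v) hq t (f := fun _ => 0)
    (g := fun s => (1 - s.S) * (1 - if val (cs q w t) s.Y < θ then 1 else 0)) (fun s hs => by
      have := hs.h1
      split_ifs <;> nlinarith)
  rwa [E_const] at this

open Classical in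
/-- consumption probability -/
lemma dead (hq : ∀ t, Prb (q t)) (t : ℕ) :
    E q w v t (fun s => if v ∈ s.Z then 0 else 1) = 1 - aa q w v t := by
  have h := link (w := w) (v := v) hq t (fun _ _ _ => 1)
  simp only [mul_one] at h
  have h2 := E_sub (q := q) (w := w) (v := v) t (fun _ => 1) (fun s => if v ∈ s.Z then 1 else 0)
  rw [E_const, h] at h2
  show _ = 1 - E q w v t (fun s => s.S)
  rw [← h2]
  refine E_congr hq t fun s _ => ?_
  split_ifs <;> norm_num

open Classical in
/-- the expected value of the best available vertex -/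
lemma value_ge (hq : ∀ t, Prb (q t)) (hw : ∀ x, 0 ≤ w x) (t : ℕ) :
    E q w v t (fun s => s.S * max (val (cs q w t) s.Y) (cs q w t v) +
      (1 - s.S) * val (cs q w t) s.Y) ≤ E q w v t (fun s => val (cs q w t) s.Z) := by
  set c := cs q w t with hc
  have hc0 : ∀ x, 0 ≤ c x := fun x => mul_nonneg (hq t x).1 (hw x)
  have h := link (w := w) (v := v) hq t (fun _ Y _ => max (val c Y) (c v) - val c Y)
  have h1 : E q w v t (fun s => s.S * max (val c s.Y) (c v) + (1 - s.S) * val c s.Y) =
      E q w v t (fun s => val c s.Y) +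
        E q w v t (fun s => s.S * (max (val c s.Y) (c v) - val c s.Y)) := by
    rw [← E_add]
    refine E_congr hq t fun s _ => ?_
    ring
  rw [h1, ← h, ← E_add]
  refine E_mono hq t fun s hs => ?_
  split_ifs with hv
  · have h2 : val c s.Y ≤ val c s.Z := val_mono hc0 hs.hYZ
    have h3 : c v ≤ val c s.Z := val_ge hv
    have := max_le h2 h3
    linarith
  · rw [add_zero]
    exact val_mono hc0 hs.hYZ

/-- `K1` -/
lemma K1 (hq : ∀ t, Prb (q t)) (hw : ∀ x, w v ≤ w x) (hv : 0 < w v) (t : ℕ) :
    gg q w v t (q t v * w v) ≤ ff q w v t + 1 - aa q w v t ^ 2 := by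
  classical
  set c := cs q w t with hc
  have h1 := nodev (q := q) (w := w) (v := v) hq (fun S => S ^ 2) (by norm_num)
    (fun t S h0 h1 => by
      show (S * (1 - q t v)) ^ 2 ≤ (1 - q t v) * S ^ 2
      have a := (hq t v).1
      have b := (hq t v).2
      nlinarith [sq_nonneg S, mul_nonneg (sub_nonneg.mpr b) a,
        mul_nonneg (mul_nonneg (sub_nonneg.mpr b) a) (sq_nonneg S)])
    (fun t S b h0 h1 hb => by
      show (S * (1 - q t v)) ^ 2 ≤ (1 - q t v) * (1 - q t b) * S ^ 2
      have hb' : q t b * w b ≤ q t v * w v := hb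
      have hqb : q t b ≤ q t v := by
        have h5 : q t v * w v ≤ q t v * w b := mul_le_mul_of_nonneg_left (hw b) (hq t v).1
        have h6 : 0 < w b := lt_of_lt_of_le hv (hw b)
        exact le_of_mul_le_mul_right (hb'.trans h5) h6
      have a := (hq t v).2
      have : 0 ≤ (1 - q t v) * (q t v - q t b) * S ^ 2 :=
        mul_nonneg (mul_nonneg (by linarith) (by linarith)) (sq_nonneg S)
      nlinarith)
    t (fun _ _ => 1) (fun _ _ => zero_le_one)
  simp only [one_mul] at h1
  have h2 : gg q w v t (q t v * w v) ≤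
      E q w v t (fun s => (1 - s.S) + (s.S - if s.X = s.Y then s.S else 0) +
        if pick (cs q w t) (insert v s.X) = some v then s.S else 0) := by
    unfold gg
    refine E_mono hq t fun s hs => ?_
    have e0 := hs.h0
    have e1 := hs.h1
    by_cases hlt : val c s.Y < q t v * w v
    · rw [if_pos hlt]
      by_cases hXY : s.X = s.Y
      · have hp : pick c (insert v s.X) = some v := pick_insert_eq (by rw [hXY]; exact hlt)
        rw [if_pos hXY, if_pos hp]
        linarith
      · rw [if_neg hXY]
        split_ifs <;> linarith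
    · rw [if_neg hlt]
      split_ifs <;> linarith
  have h3 : E q w v t (fun s => (1 - s.S) + (s.S - if s.X = s.Y then s.S else 0) +
        if pick (cs q w t) (insert v s.X) = some v then s.S else 0) =
      (1 - aa q w v t) + (aa q w v t - E q w v t (fun s => if s.X = s.Y then s.S else 0)) +
        ff q w v t := by
    unfold aa ff
    rw [E_add, E_add, E_sub, E_sub, E_const]
  have h4 : aa q w v t ^ 2 ≤ E q w v t (fun s => s.S ^ 2) := by
    have h5 := E_mono (w := w) (v := v) hq t (f := fun _ => 0)
      (g := fun s => s.S ^ 2 - 2 * aa q w v t * s.S + aa q w v t ^ 2) (fun s hs => by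
        nlinarith [sq_nonneg (s.S - aa q w v t)])
    rw [E_const, E_add, E_sub, E_smul, E_const] at h5
    have h6 : E q w v t (fun s => s.S) = aa q w v t := rfl
    rw [h6] at h5
    nlinarith
  linarith

/-- `K3` -/
lemma K3 (hq : ∀ t, Prb (q t)) (t : ℕ) (θ : ℝ) :
    1 - aa q w v t ≤ gg q w v t θ + tt q w v t θ := by
  have h1 := E_sub (q := q) (w := w) (v := v) t (fun _ => 1) (fun s => s.S)
  rw [E_const] at h1
  show 1 - E q w v t (fun s => s.S) ≤ _
  rw [← h1]
  unfold gg tt
  rw [← E_add]
  refine E_mono hq t fun s hs => ?_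
  have := hs.h0
  have := hs.h1
  split_ifs <;> linarith

/-- `K2` -/
lemma K2 (hq : ∀ t, Prb (q t)) (κ η : ℝ) (hκ : 0 ≤ κ) (hη : 0 < η)
    (hw0 : ∀ x, 0 < w x) (hw : ∀ x, w v ≤ κ * w x) (t : ℕ) (θ : ℝ) :
    gg q w v t (q t v * w v) ≤
      gg q w v t θ + ff q w v t + (1 + 1 / η) * tt q w v t θ + κ * η := by
  classical
  set c := cs q w t with hc
  have h1 := nodev (q := q) (w := w) (v := v) hq (fun S => (1 + κ) * S - κ) (by norm_num)
    (fun t S h0 h1 => by
      show (1 + κ) * (S * (1 - q t v)) - κ ≤ (1 - q t v) * ((1 + κ) * S - κ)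
      have a := (hq t v).1
      nlinarith [mul_nonneg hκ a])
    (fun t S b h0 h1 hb => by
      show (1 + κ) * (S * (1 - q t v)) - κ ≤ (1 - q t v) * (1 - q t b) * ((1 + κ) * S - κ)
      have hb' : q t b * w b ≤ q t v * w v := hb
      have hqb : q t b ≤ κ * q t v := by
        have h5 : q t v * w v ≤ q t v * (κ * w b) := mul_le_mul_of_nonneg_left (hw b) (hq t v).1
        have h6 : q t b * w b ≤ (κ * q t v) * w b := by
          calc q t b * w b ≤ q t v * (κ * w b) := hb'.trans h5
            _ = _ := by ring
        exact le_of_mul_le_mul_right h6 (hw0 b)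
      have a0 := (hq t v).1
      have a1 := (hq t v).2
      have b0 := (hq t b).1
      -- q_b (1-p) H ≤ κ p
      have h7 : q t b * (1 - q t v) * ((1 + κ) * S - κ) ≤ κ * q t v := by
        have h8 : (1 + κ) * S - κ ≤ 1 := by nlinarith
        have h9 : 0 ≤ q t b * (1 - q t v) := mul_nonneg b0 (by linarith)
        have h10 : q t b * (1 - q t v) * ((1 + κ) * S - κ) ≤ q t b * (1 - q t v) * 1 :=
          mul_le_mul_of_nonneg_left h8 h9
        have h11 : q t b * (1 - q t v) ≤ q t b := by nlinarith
        linarith
      nlinarith)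
    t (fun _ S => if 1 - η < S then 1 else 0) (fun _ S => by split_ifs <;> norm_num)
  have h2 : gg q w v t (q t v * w v) ≤
      E q w v t (fun s => (if val c s.Y < θ then 1 else 0) +
        (if pick (cs q w t) (insert v s.X) = some v then s.S else 0) +
        (1 + 1 / η) * ((1 - s.S) * (1 - if val c s.Y < θ then 1 else 0)) +
        ((if 1 - η < s.S then (1 : ℝ) else 0) * s.S -
          if s.X = s.Y then (if 1 - η < s.S then (1 : ℝ) else 0) * s.S else 0)) := by
    unfold gg
    refine E_mono hq t fun s hs => ?_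
    have e0 := hs.h0
    have e1 := hs.h1
    have hη' : 0 < 1 / η := by positivity
    have e2 : 0 ≤ (1 + 1 / η) * (1 - s.S) := mul_nonneg (by linarith) (by linarith)
    by_cases hθ : val c s.Y < θ
    · simp only [if_pos hθ, sub_self, mul_zero, add_zero]
      split_ifs <;> linarith
    · simp only [if_neg hθ, sub_zero, mul_one, zero_add]
      by_cases hlt : val c s.Y < q t v * w v
      · rw [if_pos hlt]
        by_cases hXY : s.X = s.Y
        · have hp : pick c (insert v s.X) = some v := pick_insert_eq (by rw [hXY]; exact hlt)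
          rw [if_pos hXY, if_pos hp]
          have : 0 ≤ (1 / η) * (1 - s.S) := mul_nonneg hη'.le (by linarith)
          linarith
        · rw [if_neg hXY]
          by_cases hS : 1 - η < s.S
          · rw [if_pos hS]
            have : 0 ≤ (1 / η) * (1 - s.S) := mul_nonneg hη'.le (by linarith)
            split_ifs <;> linarith
          · rw [if_neg hS]
            have h12 : 1 ≤ (1 / η) * (1 - s.S) := by
              rw [one_div, inv_mul_eq_div, le_div_iff₀ hη]
              linarith
            split_ifs <;> linarith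
      · rw [if_neg hlt]
        split_ifs <;> linarith
  have h3 : E q w v t (fun s => (if val c s.Y < θ then (1 : ℝ) else 0) +
        (if pick (cs q w t) (insert v s.X) = some v then s.S else 0) +
        (1 + 1 / η) * ((1 - s.S) * (1 - if val c s.Y < θ then 1 else 0)) +
        ((if 1 - η < s.S then (1 : ℝ) else 0) * s.S -
          if s.X = s.Y then (if 1 - η < s.S then (1 : ℝ) else 0) * s.S else 0)) =
      gg q w v t θ + ff q w v t + (1 + 1 / η) * tt q w v t θ +
        (E q w v t (fun s => (if 1 - η < s.S then (1 : ℝ) else 0) * s.S) -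
          E q w v t (fun s => if s.X = s.Y then (if 1 - η < s.S then (1 : ℝ) else 0) * s.S
            else 0)) := by
    unfold gg ff tt
    rw [E_add, E_add, E_add, E_smul, E_sub]
  have h4 : E q w v t (fun s => (if 1 - η < s.S then (1 : ℝ) else 0) * s.S) -
      E q w v t (fun s => (if 1 - η < s.S then (1 : ℝ) else 0) * ((1 + κ) * s.S - κ)) ≤
        κ * η := by
    rw [← E_sub]
    have h5 := E_const (q := q) (w := w) (v := v) t (κ * η)
    rw [← h5]
    refine E_mono hq t fun s hs => ?_
    have e1 := hs.h1
    split_ifs with h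
    · nlinarith
    · nlinarith [mul_nonneg hκ hη.le]
  linarith

/-- the process without `v` does not look at the weight of `v` -/
lemma Y_marg (hq : ∀ t, Prb (q t)) {w' : V → ℝ} (hw : ∀ x, x ≠ v → w x = w' x) (t : ℕ)
    (g : Finset V → ℝ) :
    E q w v t (fun s => g s.Y) = E q w' v t (fun s => g s.Y) := by
  induction t generalizing g with
  | zero => rfl
  | succ t ih =>
    rw [E_succ, E_succ]
    have e1 : E q w v t (fun s => rowE (q t) (fun ξ => g (K q w v t s ξ).Y)) =
        E q w v t (fun s => (fun Y => rowE (q t)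
          (fun ξ => g (upd Y (pick (cs q w' t) Y) ξ))) s.Y) := by
      refine E_congr hq t fun s hs => ?_
      have hc : pick (cs q w t) s.Y = pick (cs q w' t) s.Y := by
        refine pick_congr fun x hx => ?_
        have hxv : x ≠ v := fun e => hs.hv (hs.hYX (e ▸ hx))
        show q t x * w x = q t x * w' x
        rw [hw x hxv]
      show rowE (q t) (fun ξ => g (upd s.Y (pick (cs q w t) s.Y) ξ)) = _
      rw [hc]
    exact e1.trans (ih (fun Y => rowE (q t) (fun ξ => g (upd Y (pick (cs q w' t) Y) ξ))))

lemma gg_congr (hq : ∀ t, Prb (q t)) {w' : V → ℝ} (hw : ∀ x, x ≠ v → w x = w' x) (t : ℕ)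
    (θ : ℝ) : gg q w v t θ = gg q w' v t θ := by
  unfold gg
  have e1 : E q w v t (fun s => if val (cs q w t) s.Y < θ then (1 : ℝ) else 0) =
      E q w v t (fun s => (fun Y => if val (cs q w' t) Y < θ then (1 : ℝ) else 0) s.Y) := by
    refine E_congr hq t fun s hs => ?_
    have hc : val (cs q w t) s.Y = val (cs q w' t) s.Y := by
      refine val_congr fun x hx => ?_
      have hxv : x ≠ v := fun e => hs.hv (hs.hYX (e ▸ hx))
      show q t x * w x = q t x * w' x
      rw [hw x hxv]
    show (if val (cs q w t) s.Y < θ then (1 : ℝ) else 0) =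
      if val (cs q w' t) s.Y < θ then (1 : ℝ) else 0
    rw [hc]
  exact e1.trans (Y_marg hq hw t (fun Y => if val (cs q w' t) Y < θ then (1 : ℝ) else 0))

end Pool.Agent.W991.Stoch
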