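import Pool.Agent.W991.Stoch.Bounds

/-!
# The inequality for one offline vertex
-/

set_option autoImplicit false
set_option linter.unusedSectionVars false

open Finset

namespace Pool.Agent.W991.Stoch

/-- the two weights -/
noncomputable def ws : ℝ := 251 / 500
noncomputable def wk : ℝ := 61 / 125

/-- `K4` -/
lemma K4 (p f x a : ℕ → ℝ) (h0 : a 0 = 1) (ha : ∀ t, a (t + 1) = a t - p t * f t)
    (hp : ∀ t, 0 ≤ p t) (hf0 : ∀ t, 0 ≤ f t) (hf1 : ∀ t, f t ≤ 1) (hx0 : ∀ t, 0 ≤ x t)
    (hx1 : ∀ t, x t ≤ 1) (n : ℕ) :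
    0 ≤ ∑ t ∈ range n, x t * p t * f t ∧
    ∑ t ∈ range n, x t * p t * f t ≤ ∑ t ∈ range n, x t * p t ∧
    ∑ t ∈ range n, x t * p t * f t ≤ 1 - a n ∧
    (1 - ∑ t ∈ range n, x t * p t) * (1 - a n) + (∑ t ∈ range n, x t * p t * f t) ^ 2 / 2 ≤
      (1 - a n) - ∑ t ∈ range n, x t * p t * (1 - a t) := by
  induction n with
  | zero => simp [h0]
  | succ n ih =>
    obtain ⟨i1, i2, i3, i4⟩ := ih
    rw [Finset.sum_range_succ, Finset.sum_range_succ, Finset.sum_range_succ, ha n]
    set F := ∑ t ∈ range n, x t * p t * f t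
    set m := ∑ t ∈ range n, x t * p t
    set L := ∑ t ∈ range n, x t * p t * (1 - a t)
    have hμ0 : 0 ≤ x n * p n := mul_nonneg (hx0 n) (hp n)
    have hμp : x n * p n ≤ p n := by nlinarith [hp n, hx1 n]
    have hμf : 0 ≤ x n * p n * f n := mul_nonneg hμ0 (hf0 n)
    have hμf1 : x n * p n * f n ≤ x n * p n := by nlinarith [hf1 n]
    have hpf : x n * p n * f n ≤ p n * f n := by nlinarith [hf0 n]
    refine ⟨by linarith, by linarith, by linarith, ?_⟩
    set μ := x n * p n
    set φ := f n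
    set P := p n
    have hm : 0 ≤ m := le_trans i1 i2
    -- (m+μ) P φ − F μ φ − μ² φ² / 2 ≥ 0
    have key : F * (μ * φ) + (μ * φ) ^ 2 / 2 ≤ (m + μ) * (P * φ) := by
      have h1 : F * (μ * φ) ≤ m * (P * φ) := by
        calc F * (μ * φ) ≤ m * (μ * φ) := mul_le_mul_of_nonneg_right i2 hμf
          _ ≤ m * (P * φ) := mul_le_mul_of_nonneg_left hpf hm
      have h2 : (μ * φ) ^ 2 ≤ μ * (P * φ) := by
        calc (μ * φ) ^ 2 = (μ * φ) * (μ * φ) := by ring
          _ ≤ μ * (P * φ) := mul_le_mul hμf1 hpf hμf hμ0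
      have h3 : 0 ≤ μ * (P * φ) := mul_nonneg hμ0 (mul_nonneg (hp n) (hf0 n))
      nlinarith
    nlinarith

lemma quad (F m g b : ℝ) (hg : 0 < g) (hb : b ≤ g) (hF : 0 ≤ F)
    (hm0 : 0 ≤ m) (hm : m ≤ 1) :
    b * F - b ^ 2 / (2 * g) * m ≤ g * ((1 - m) * F + F ^ 2 / 2) := by
  have e : g * ((1 - m) * F + F ^ 2 / 2) - (b * F - b ^ 2 / (2 * g) * m) =
      g * (F - b / g * m) ^ 2 / 2 + (1 - m) * (g - b) * F + b ^ 2 / (2 * g) * (m * (1 - m)) := by
    field_simp
    ring
  have h1 : 0 ≤ g * (F - b / g * m) ^ 2 / 2 := by positivity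
  have h2 : 0 ≤ (1 - m) * (g - b) * F :=
    mul_nonneg (mul_nonneg (by linarith) (by linarith)) hF
  have h3 : 0 ≤ b ^ 2 / (2 * g) * (m * (1 - m)) :=
    mul_nonneg (by positivity) (mul_nonneg hm0 (by linarith))
  linarith

variable {V : Type} [Fintype V] [DecidableEq V] [LinearOrder V]

variable {q : ℕ → V → ℝ}

theorem bracket (hq : ∀ t, Prb (q t)) (w : V → ℝ) (hw : ∀ x, w x = ws ∨ w x = wk) (v : V)
    (n : ℕ) (x : ℕ → ℝ) (hx0 : ∀ t, 0 ≤ x t) (hx1 : ∀ t, x t ≤ 1)
    (hm : ∑ t ∈ range n, x t * q t v ≤ 1) :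
    (1 + 1 / 1000) * ∑ t ∈ range n, x t * q t v ≤
      (∑ t ∈ range n, x t * E q (Function.update w v ws) v t
        (fun s => val (cs q (Function.update w v ws) t) s.Z) +
        (1 - ws) * (1 - aa q (Function.update w v ws) v n)) +
      (∑ t ∈ range n, x t * E q (Function.update w v wk) v t
        (fun s => val (cs q (Function.update w v wk) t) s.Z) +
        (1 - wk) * (1 - aa q (Function.update w v wk) v n)) := by
  set w1 := Function.update w v ws with hw1
  set w2 := Function.update w v wk with hw2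
  have hws : ws = 251 / 500 := rfl
  have hwk : wk = 61 / 125 := rfl
  have w1v : w1 v = ws := by simp [hw1]
  have w2v : w2 v = wk := by simp [hw2]
  have hw1' : ∀ x, w1 x = ws ∨ w1 x = wk := by
    intro y
    by_cases hy : y = v
    · left; rw [hy]; exact w1v
    · rw [hw1, Function.update_of_ne hy]; exact hw y
  have hw2' : ∀ x, w2 x = ws ∨ w2 x = wk := by
    intro y
    by_cases hy : y = v
    · right; rw [hy]; exact w2v
    · rw [hw2, Function.update_of_ne hy]; exact hw y
  have pos : ∀ y : ℝ, y = ws ∨ y = wk → 0 < y := by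
    rintro y (rfl | rfl) <;> norm_num [hws, hwk]
  have hagree : ∀ x, x ≠ v → w1 x = w2 x := by
    intro y hy
    rw [hw1, hw2, Function.update_of_ne hy, Function.update_of_ne hy]
  -- per time inequality
  have hT : ∀ t, 1 + (7817 / 10000 : ℝ) * (1 / 500) - 9 / 500 * ff q w2 v t
      - 7 / 500 * ff q w1 v t ≤
      ws * aa q w1 v t + wk * tt q w1 v t (q t v * wk) + wk * aa q w2 v t +
        (ws - wk) * (1 - gg q w2 v t (q t v * ws)) + (1 - ws) * (1 - aa q w1 v t) +
        (1 - wk) * (1 - aa q w2 v t) := by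
    intro t
    have k1 := K1 (q := q) (w := w2) (v := v) hq (fun x => by
      rw [w2v]
      rcases hw2' x with h | h <;> rw [h] <;> norm_num [hws, hwk]) (by
      rw [w2v]; norm_num [hwk]) t
    rw [w2v] at k1
    have k2 := K2 (q := q) (w := w1) (v := v) hq (251 / 244) (1 / 33) (by norm_num)
      (by norm_num) (fun x => pos _ (hw1' x)) (fun x => by
        rw [w1v]
        rcases hw1' x with h | h <;> rw [h] <;> norm_num [hws, hwk]) t (q t v * wk)
    rw [w1v] at k2
    have k3 := K3 (q := q) (w := w1) (v := v) hq t (q t v * wk)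
    have e1 : gg q w1 v t (q t v * wk) = gg q w2 v t (q t v * wk) := gg_congr hq hagree t _
    have e2 : gg q w1 v t (q t v * ws) = gg q w2 v t (q t v * ws) := gg_congr hq hagree t _
    rw [e1, e2] at k2
    rw [e1] at k3
    have htt := tt_nonneg (q := q) (w := w1) (v := v) hq t (q t v * wk)
    generalize gg q w2 v t (q t v * wk) = gk at *
    generalize gg q w2 v t (q t v * ws) = gs at *
    generalize tt q w1 v t (q t v * wk) = θ at *
    generalize aa q w1 v t = a1 at *
    generalize aa q w2 v t = a2 at *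
    generalize ff q w1 v t = f1 at *
    generalize ff q w2 v t = f2 at *
    rw [hws, hwk]
    norm_num at k2
    nlinarith [sq_nonneg (3 * (1 - a2) - 1)]
  -- values
  have hV1 : ∀ t, q t v * (ws * aa q w1 v t + wk * tt q w1 v t (q t v * wk)) ≤
      E q w1 v t (fun s => val (cs q w1 t) s.Z) := by
    intro t
    refine le_trans ?_ (value_ge hq (fun x => (pos _ (hw1' x)).le) t)
    have : q t v * (ws * aa q w1 v t + wk * tt q w1 v t (q t v * wk)) =
        E q w1 v t (fun s => (q t v * ws) * s.S + (q t v * wk) *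
          ((1 - s.S) * (1 - if val (cs q w1 t) s.Y < q t v * wk then 1 else 0))) := by
      rw [E_add, E_smul, E_smul]
      unfold aa tt
      ring
    rw [this]
    refine E_mono hq t fun s hs => ?_
    have hc : cs q w1 t v = q t v * ws := by
      show q t v * w1 v = _
      rw [w1v]
    rw [hc]
    have hs0 := hs.h0
    have hs1 := hs.h1
    have hvY : 0 ≤ val (cs q w1 t) s.Y :=
      val_nonneg (fun x => mul_nonneg (hq t x).1 (pos _ (hw1' x)).le) _
    have hmax : q t v * ws * s.S ≤ s.S * max (val (cs q w1 t) s.Y) (q t v * ws) := by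
      rw [mul_comm]
      exact mul_le_mul_of_nonneg_left (le_max_right _ _) hs0
    have h2 : (q t v * wk) *
          ((1 - s.S) * (1 - if val (cs q w1 t) s.Y < q t v * wk then 1 else 0)) ≤
        (1 - s.S) * val (cs q w1 t) s.Y := by
      split_ifs with h
      · have : 0 ≤ (1 - s.S) * val (cs q w1 t) s.Y := mul_nonneg (by linarith) hvY
        linarith
      · have h' := mul_le_mul_of_nonneg_left (not_lt.mp h) (by linarith : 0 ≤ 1 - s.S)
        linarith
    linarith
  have hV2 : ∀ t, q t v * (wk * aa q w2 v t + (ws - wk) * (1 - gg q w2 v t (q t v * ws))) ≤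
      E q w2 v t (fun s => val (cs q w2 t) s.Z) := by
    intro t
    refine le_trans ?_ (value_ge hq (fun x => (pos _ (hw2' x)).le) t)
    have : q t v * (wk * aa q w2 v t + (ws - wk) * (1 - gg q w2 v t (q t v * ws))) =
        E q w2 v t (fun s => (q t v * wk) * s.S + (q t v * (ws - wk)) *
          (1 - if val (cs q w2 t) s.Y < q t v * ws then 1 else 0)) := by
      rw [E_add, E_smul, E_smul, E_sub, E_const]
      unfold aa gg
      ring
    rw [this]
    refine E_mono hq t fun s hs => ?_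
    have hc : cs q w2 t v = q t v * wk := by
      show q t v * w2 v = _
      rw [w2v]
    rw [hc]
    have hs0 := hs.h0
    have hs1 := hs.h1
    have hq0 := (hq t v).1
    have hvY : 0 ≤ val (cs q w2 t) s.Y :=
      val_nonneg (fun x => mul_nonneg (hq t x).1 (pos _ (hw2' x)).le) _
    have hmax : s.S * (q t v * wk) ≤ s.S * max (val (cs q w2 t) s.Y) (q t v * wk) :=
      mul_le_mul_of_nonneg_left (le_max_right _ _) hs0
    have hmax2 : s.S * val (cs q w2 t) s.Y ≤ s.S * max (val (cs q w2 t) s.Y) (q t v * wk) :=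
      mul_le_mul_of_nonneg_left (le_max_left _ _) hs0
    have h1 : 0 ≤ (1 - s.S) * val (cs q w2 t) s.Y := mul_nonneg (by linarith) hvY
    split_ifs with h
    · linarith
    · have h3 := not_lt.mp h
      have h4 : 0 ≤ (1 - s.S) * (q t v * wk) :=
        mul_nonneg (by linarith) (mul_nonneg hq0 (by norm_num [hwk]))
      nlinarith
  obtain ⟨a1, a2, a3, a4⟩ := K4 (fun t => q t v) (fun t => ff q w1 v t) x (fun t => aa q w1 v t)
    aa_zero (fun t => aa_succ hq t) (fun t => (hq t v).1) (fun t => ff_nonneg hq t)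
    (fun t => ff_le_one hq t) hx0 hx1 n
  obtain ⟨b1, b2, b3, b4⟩ := K4 (fun t => q t v) (fun t => ff q w2 v t) x (fun t => aa q w2 v t)
    aa_zero (fun t => aa_succ hq t) (fun t => (hq t v).1) (fun t => ff_nonneg hq t)
    (fun t => ff_le_one hq t) hx0 hx1 n
  have hμ : ∀ t, 0 ≤ x t * q t v := fun t => mul_nonneg (hx0 t) (hq t v).1
  have hm0 : 0 ≤ ∑ t ∈ range n, x t * q t v := Finset.sum_nonneg fun t _ => hμ t
  -- sum of the per time inequalities
  have hsum : ∑ t ∈ range n, x t * q t v * (1 + (7817 / 10000 : ℝ) * (1 / 500)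
      - 9 / 500 * ff q w2 v t - 7 / 500 * ff q w1 v t) ≤
      ∑ t ∈ range n, x t * q t v * (ws * aa q w1 v t + wk * tt q w1 v t (q t v * wk) +
        wk * aa q w2 v t + (ws - wk) * (1 - gg q w2 v t (q t v * ws)) +
        (1 - ws) * (1 - aa q w1 v t) + (1 - wk) * (1 - aa q w2 v t)) :=
    Finset.sum_le_sum fun t _ => mul_le_mul_of_nonneg_left (hT t) (hμ t)
  have e1 : ∑ t ∈ range n, x t * q t v * (1 + (7817 / 10000 : ℝ) * (1 / 500)
      - 9 / 500 * ff q w2 v t - 7 / 500 * ff q w1 v t) =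
      (1 + (7817 / 10000 : ℝ) * (1 / 500)) * ∑ t ∈ range n, x t * q t v -
        9 / 500 * ∑ t ∈ range n, x t * q t v * ff q w2 v t -
        7 / 500 * ∑ t ∈ range n, x t * q t v * ff q w1 v t := by
    rw [Finset.mul_sum, Finset.mul_sum, Finset.mul_sum, ← Finset.sum_sub_distrib,
      ← Finset.sum_sub_distrib]
    exact Finset.sum_congr rfl fun t _ => by ring
  have e2 : ∑ t ∈ range n, x t * q t v * (ws * aa q w1 v t + wk * tt q w1 v t (q t v * wk) +
        wk * aa q w2 v t + (ws - wk) * (1 - gg q w2 v t (q t v * ws)) +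
        (1 - ws) * (1 - aa q w1 v t) + (1 - wk) * (1 - aa q w2 v t)) =
      ∑ t ∈ range n, x t * (q t v * (ws * aa q w1 v t + wk * tt q w1 v t (q t v * wk))) +
      ∑ t ∈ range n, x t * (q t v *
        (wk * aa q w2 v t + (ws - wk) * (1 - gg q w2 v t (q t v * ws)))) +
      (1 - ws) * ∑ t ∈ range n, x t * q t v * (1 - aa q w1 v t) +
      (1 - wk) * ∑ t ∈ range n, x t * q t v * (1 - aa q w2 v t) := by
    rw [Finset.mul_sum, Finset.mul_sum, ← Finset.sum_add_distrib, ← Finset.sum_add_distrib,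
      ← Finset.sum_add_distrib]
    exact Finset.sum_congr rfl fun t _ => by ring
  have s1 : ∑ t ∈ range n, x t * (q t v * (ws * aa q w1 v t + wk * tt q w1 v t (q t v * wk))) ≤
      ∑ t ∈ range n, x t * E q w1 v t (fun s => val (cs q w1 t) s.Z) :=
    Finset.sum_le_sum fun t _ => mul_le_mul_of_nonneg_left (hV1 t) (hx0 t)
  have s2 : ∑ t ∈ range n, x t * (q t v *
        (wk * aa q w2 v t + (ws - wk) * (1 - gg q w2 v t (q t v * ws)))) ≤
      ∑ t ∈ range n, x t * E q w2 v t (fun s => val (cs q w2 t) s.Z) :=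
    Finset.sum_le_sum fun t _ => mul_le_mul_of_nonneg_left (hV2 t) (hx0 t)
  rw [e1, e2] at hsum
  generalize hF1 : ∑ t ∈ range n, x t * q t v * ff q w1 v t = F1 at *
  generalize hF2 : ∑ t ∈ range n, x t * q t v * ff q w2 v t = F2 at *
  generalize hM : ∑ t ∈ range n, x t * q t v = m at *
  generalize hL1 : ∑ t ∈ range n, x t * q t v * (1 - aa q w1 v t) = L1 at *
  generalize hL2 : ∑ t ∈ range n, x t * q t v * (1 - aa q w2 v t) = L2 at *
  have q1 := quad F1 m (1 - ws) (7 / 500) (by norm_num [hws])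
    (by norm_num [hws]) a1 hm0 hm
  have q2 := quad F2 m (1 - wk) (9 / 500) (by norm_num [hwk])
    (by norm_num [hwk]) b1 hm0 hm
  have c1 : (1 - m) * F1 ≤ (1 - m) * (1 - aa q w1 v n) :=
    mul_le_mul_of_nonneg_left a3 (by linarith)
  have c2 : (1 - m) * F2 ≤ (1 - m) * (1 - aa q w2 v n) :=
    mul_le_mul_of_nonneg_left b3 (by linarith)
  generalize ∑ t ∈ range n, x t *
    (q t v * (ws * aa q w1 v t + wk * tt q w1 v t (q t v * wk))) = R1 at *
  generalize ∑ t ∈ range n, x t * (q t v *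
        (wk * aa q w2 v t + (ws - wk) * (1 - gg q w2 v t (q t v * ws)))) = R2 at *
  clear e1 e2 hV1 hV2 hT
  rw [hws] at q1 hsum ⊢
  rw [hwk] at q2 hsum ⊢
  norm_num at q1 q2
  generalize aa q w1 v n = A1 at *
  generalize aa q w2 v n = A2 at *
  nlinarith
end Pool.Agent.W991.Stoch
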