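import Pool.Agent.W991.Stoch.Pick

/-!
# The coupled chain

For a vertex `v` we run together: the weighted greedy process (`Z`), the process in which `v` is
never consumed (`X` is what is left besides `v`, `S` the probability that `v` is still there), and
the process without `v` (`Y`).
-/

set_option autoImplicit false
set_option linter.unusedSectionVars false

open Finset

namespace Pool.Agent.W991.Stoch

variable {V : Type} [Fintype V] [DecidableEq V] [LinearOrder V]

/-- the state of the coupled chain -/
structure St (V : Type) where
  Z : Finset V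
  X : Finset V
  Y : Finset V
  S : ℝ

variable (q : ℕ → V → ℝ) (w : V → ℝ) (v : V)

/-- expected utilities -/
def cs (t : ℕ) : V → ℝ := fun x => q t x * w x

/-- one step -/
noncomputable def K (t : ℕ) (s : St V) (ξ : V → Bool) : St V where
  Z := upd s.Z (pick (cs q w t) s.Z) ξ
  X := if pick (cs q w t) (insert v s.X) = some v then s.X
    else upd s.X (pick (cs q w t) (insert v s.X)) ξ
  Y := upd s.Y (pick (cs q w t) s.Y) ξ
  S := if pick (cs q w t) (insert v s.X) = some v then s.S * (1 - q t v) else s.S

/-- the start -/
def z0 : St V where
  Z := univ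
  X := univ.erase v
  Y := univ.erase v
  S := 1

/-- the invariant -/
structure Inv (s : St V) : Prop where
  hYX : s.Y ⊆ s.X
  hv : v ∉ s.X
  hYZ : s.Y ⊆ s.Z
  hZ : v ∈ s.Z → s.Z = insert v s.X
  h0 : 0 ≤ s.S
  h1 : s.S ≤ 1

lemma inv_z0 : Inv v (z0 v) where
  hYX := Finset.Subset.refl _
  hv := by simp [z0]
  hYZ := by simp [z0]
  hZ := by intro _; simp [z0, Finset.insert_erase]
  h0 := by simp [z0]
  h1 := by simp [z0]

/-- the other choice -/
lemma pick_other {c : V → ℝ} {X : Finset V} {v : V} (h : pick c (insert v X) ≠ some v) :
    ∃ a, a ∈ X ∧ a ≠ v ∧ pick c (insert v X) = some a ∧ pick c X = some a := by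
  cases hp : pick c (insert v X) with
  | none =>
    rw [pick_eq_none] at hp
    exact absurd hp (Finset.insert_ne_empty v X)
  | some a =>
    have hav : a ≠ v := fun e => h (by rw [hp, e])
    have haX : a ∈ X := by
      have := pick_mem hp
      rw [Finset.mem_insert] at this
      exact this.resolve_left hav
    exact ⟨a, haX, hav, rfl, pick_sub hp haX (Finset.subset_insert v X)⟩

variable {q w v}

lemma inv_step (hq : ∀ t, Prb (q t)) (t : ℕ) (s : St V) (ξ : V → Bool) (hs : Inv v s) :
    Inv v (K q w v t s ξ) := by
  set c := cs q w t with hc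
  refine ⟨?_, ?_, ?_, ?_, ?_, ?_⟩
  · show upd s.Y (pick c s.Y) ξ ⊆ if pick c (insert v s.X) = some v then s.X
      else upd s.X (pick c (insert v s.X)) ξ
    split_ifs with h
    · exact (upd_subset _ _ _).trans hs.hYX
    · obtain ⟨a, _, _, h1, h2⟩ := pick_other h
      rw [h1, ← h2]
      exact upd_mono hs.hYX ξ
  · show v ∉ if pick c (insert v s.X) = some v then s.X
      else upd s.X (pick c (insert v s.X)) ξ
    split_ifs with h
    · exact hs.hv
    · exact fun h' => hs.hv (upd_subset _ _ _ h')
  · exact upd_mono hs.hYZ ξ
  · show v ∈ upd s.Z (pick c s.Z) ξ → upd s.Z (pick c s.Z) ξ =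
      insert v (if pick c (insert v s.X) = some v then s.X
        else upd s.X (pick c (insert v s.X)) ξ)
    intro hv'
    have hvZ := upd_subset _ _ _ hv'
    have hZ := hs.hZ hvZ
    rw [hZ] at hv' ⊢
    split_ifs with h
    · rw [h, upd_some] at hv' ⊢
      split_ifs at hv' ⊢ with h3
      · exact absurd hv' (by simp)
      · rfl
    · obtain ⟨a, haX, hav, h1, h2⟩ := pick_other h
      rw [h1, upd_some, upd_some]
      split_ifs with h3
      · rw [Finset.erase_insert_of_ne (Ne.symm hav)]
      · rfl
  · show 0 ≤ if pick c (insert v s.X) = some v then s.S * (1 - q t v) else s.S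
    split_ifs
    · exact mul_nonneg hs.h0 (by linarith [(hq t v).2])
    · exact hs.h0
  · show (if pick c (insert v s.X) = some v then s.S * (1 - q t v) else s.S) ≤ 1
    split_ifs
    · have := (hq t v).1
      have := (hq t v).2
      nlinarith [hs.h0, hs.h1]
    · exact hs.h1

variable (q w v)

/-- expectation for the coupled chain -/
noncomputable def E (t : ℕ) (f : St V → ℝ) : ℝ := Ex q (K q w v) (z0 v) t f

variable {q w v}

lemma E_mono (hq : ∀ t, Prb (q t)) (t : ℕ) {f g : St V → ℝ}
    (h : ∀ s, Inv v s → f s ≤ g s) : E q w v t f ≤ E q w v t g :=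
  Ex_mono q _ _ hq (inv_z0 v) (fun t s ξ hs => inv_step hq t s ξ hs) t h

lemma E_congr (hq : ∀ t, Prb (q t)) (t : ℕ) {f g : St V → ℝ}
    (h : ∀ s, Inv v s → f s = g s) : E q w v t f = E q w v t g :=
  Ex_congr q _ _ hq (inv_z0 v) (fun t s ξ hs => inv_step hq t s ξ hs) t h

lemma E_succ (t : ℕ) (f : St V → ℝ) :
    E q w v (t + 1) f = E q w v t (fun s => rowE (q t) (fun ξ => f (K q w v t s ξ))) := rfl

lemma E_const (t : ℕ) (c : ℝ) : E q w v t (fun _ => c) = c := Ex_const _ _ _ t c
lemma E_add (t : ℕ) (f g : St V → ℝ) :
    E q w v t (fun s => f s + g s) = E q w v t f + E q w v t g := Ex_add _ _ _ t f g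
lemma E_sub (t : ℕ) (f g : St V → ℝ) :
    E q w v t (fun s => f s - g s) = E q w v t f - E q w v t g := Ex_sub _ _ _ t f g
lemma E_smul (t : ℕ) (c : ℝ) (f : St V → ℝ) :
    E q w v t (fun s => c * f s) = c * E q w v t f := Ex_smul _ _ _ t c f

open Classical in
/-- the coins of `v` are independent of the rest -/
lemma link (hq : ∀ t, Prb (q t)) (t : ℕ) (h : Finset V → Finset V → ℝ → ℝ) :
    E q w v t (fun s => if v ∈ s.Z then h s.X s.Y s.S else 0) =
      E q w v t (fun s => s.S * h s.X s.Y s.S) := by
  induction t generalizing h with
  | zero => simp [E, z0]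
  | succ t ih =>
    set c := cs q w t with hc
    let g : Finset V → Finset V → ℝ → ℝ := fun X Y S =>
      if pick c (insert v X) = some v then
        (1 - q t v) * rowE (q t) (fun ξ => h X (upd Y (pick c Y) ξ) (S * (1 - q t v)))
      else rowE (q t) (fun ξ => h (upd X (pick c (insert v X)) ξ) (upd Y (pick c Y) ξ) S)
    have e1 : E q w v (t + 1) (fun s => if v ∈ s.Z then h s.X s.Y s.S else 0) =
        E q w v t (fun s => if v ∈ s.Z then g s.X s.Y s.S else 0) := by
      rw [E_succ]
      refine E_congr hq t fun s hs => ?_
      by_cases hvZ : v ∈ s.Z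
      · rw [if_pos hvZ]
        have hZ := hs.hZ hvZ
        by_cases hp : pick c (insert v s.X) = some v
        · have hg : g s.X s.Y s.S = (1 - q t v) *
              rowE (q t) (fun ξ => h s.X (upd s.Y (pick c s.Y) ξ) (s.S * (1 - q t v))) :=
            if_pos hp
          rw [hg]
          have hne : pick c s.Y ≠ some v := fun e => hs.hv (hs.hYX (pick_mem e))
          have hind := rowE_indep (q t) v (fun b => if b then 0 else 1)
            (fun ξ => h s.X (upd s.Y (pick c s.Y) ξ) (s.S * (1 - q t v)))
            (fun ξ b => by rw [upd_update hne])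
          simp only [if_true, Bool.false_eq_true, if_false, mul_zero, zero_add, mul_one] at hind
          rw [← hind]
          congr 1
          funext ξ
          have hZ' : (K q w v t s ξ).Z = if ξ v then s.Z.erase v else s.Z := by
            show upd s.Z (pick c s.Z) ξ = _
            rw [hZ, hp, upd_some]
          have hX' : (K q w v t s ξ).X = s.X := by
            show (if pick c (insert v s.X) = some v then s.X
              else upd s.X (pick c (insert v s.X)) ξ) = _
            rw [if_pos hp]
          have hS' : (K q w v t s ξ).S = s.S * (1 - q t v) := by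
            show (if pick c (insert v s.X) = some v then s.S * (1 - q t v) else s.S) = _
            rw [if_pos hp]
          have hY' : (K q w v t s ξ).Y = upd s.Y (pick c s.Y) ξ := rfl
          rw [hZ', hX', hS', hY']
          cases hb : ξ v
          · simp [hvZ]
          · simp
        · have hg : g s.X s.Y s.S =
              rowE (q t) (fun ξ => h (upd s.X (pick c (insert v s.X)) ξ)
                (upd s.Y (pick c s.Y) ξ) s.S) := if_neg hp
          rw [hg]
          congr 1
          funext ξ
          have hX' : (K q w v t s ξ).X = upd s.X (pick c (insert v s.X)) ξ := by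
            show (if pick c (insert v s.X) = some v then s.X
              else upd s.X (pick c (insert v s.X)) ξ) = _
            rw [if_neg hp]
          have hS' : (K q w v t s ξ).S = s.S := by
            show (if pick c (insert v s.X) = some v then s.S * (1 - q t v) else s.S) = _
            rw [if_neg hp]
          have hY' : (K q w v t s ξ).Y = upd s.Y (pick c s.Y) ξ := rfl
          have hZ' : v ∈ (K q w v t s ξ).Z := by
            show v ∈ upd s.Z (pick c s.Z) ξ
            obtain ⟨a, _, hav, h1, _⟩ := pick_other hp
            rw [hZ, h1, upd_some]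
            split_ifs
            · exact Finset.mem_erase.mpr ⟨Ne.symm hav, Finset.mem_insert_self _ _⟩
            · exact Finset.mem_insert_self _ _
          rw [if_pos hZ', hX', hS', hY']
      · rw [if_neg hvZ]
        have : ∀ ξ, v ∉ (K q w v t s ξ).Z := fun ξ h' => hvZ (upd_subset _ _ _ h')
        simp only [this, if_false]
        exact rowE_const _ _
    rw [e1, ih, E_succ]
    congr 1
    funext s
    by_cases hp : pick c (insert v s.X) = some v
    · have hg : g s.X s.Y s.S = (1 - q t v) *
          rowE (q t) (fun ξ => h s.X (upd s.Y (pick c s.Y) ξ) (s.S * (1 - q t v))) :=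
        if_pos hp
      rw [hg, ← rowE_smul, ← rowE_smul]
      congr 1
      funext ξ
      have hX' : (K q w v t s ξ).X = s.X := by
        show (if pick c (insert v s.X) = some v then s.X
          else upd s.X (pick c (insert v s.X)) ξ) = _
        rw [if_pos hp]
      have hS' : (K q w v t s ξ).S = s.S * (1 - q t v) := by
        show (if pick c (insert v s.X) = some v then s.S * (1 - q t v) else s.S) = _
        rw [if_pos hp]
      have hY' : (K q w v t s ξ).Y = upd s.Y (pick c s.Y) ξ := rfl
      rw [hX', hS', hY']
      ring
    · have hg : g s.X s.Y s.S =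
          rowE (q t) (fun ξ => h (upd s.X (pick c (insert v s.X)) ξ)
            (upd s.Y (pick c s.Y) ξ) s.S) := if_neg hp
      rw [hg, ← rowE_smul]
      congr 1
      funext ξ
      have hX' : (K q w v t s ξ).X = upd s.X (pick c (insert v s.X)) ξ := by
        show (if pick c (insert v s.X) = some v then s.X
          else upd s.X (pick c (insert v s.X)) ξ) = _
        rw [if_neg hp]
      have hS' : (K q w v t s ξ).S = s.S := by
        show (if pick c (insert v s.X) = some v then s.S * (1 - q t v) else s.S) = _
        rw [if_neg hp]
      have hY' : (K q w v t s ξ).Y = upd s.Y (pick c s.Y) ξ := rfl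
      rw [hX', hS', hY']

open Classical in
/-- no deviation: a lower bound for the event `X = Y` given the `X`-process -/
lemma nodev (hq : ∀ t, Prb (q t)) (H : ℝ → ℝ) (hH1 : H 1 ≤ 1)
    (hH : ∀ t S, 0 ≤ S → S ≤ 1 → H (S * (1 - q t v)) ≤ (1 - q t v) * H S)
    (hH' : ∀ t S b, 0 ≤ S → S ≤ 1 → cs q w t b ≤ cs q w t v →
      H (S * (1 - q t v)) ≤ (1 - q t v) * (1 - q t b) * H S)
    (t : ℕ) (φ : Finset V → ℝ → ℝ) (hφ : ∀ X S, 0 ≤ φ X S) :
    E q w v t (fun s => φ s.X s.S * H s.S) ≤
      E q w v t (fun s => if s.X = s.Y then φ s.X s.S * s.S else 0) := by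
  induction t generalizing φ with
  | zero =>
    show φ _ _ * H 1 ≤ if (z0 v).X = (z0 v).Y then φ _ _ * 1 else 0
    have hXY : (z0 v).X = (z0 v).Y := rfl
    rw [if_pos hXY]
    exact mul_le_mul_of_nonneg_left hH1 (hφ _ _)
  | succ t ih =>
    set c := cs q w t with hc
    let r : Finset V → ℝ := fun X => (pick c X).elim 0 (q t)
    have hr0 : ∀ X, 0 ≤ 1 - r X := by
      intro X
      show 0 ≤ 1 - (pick c X).elim 0 (q t)
      cases pick c X with
      | none => simp
      | some a => simpa using (hq t a).2
    have hp0 : 0 ≤ 1 - q t v := by linarith [(hq t v).2]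
    let ψ : Finset V → ℝ → ℝ := fun X S =>
      if pick c (insert v X) = some v then (1 - q t v) * (1 - r X) * φ X (S * (1 - q t v))
      else rowE (q t) (fun ξ => φ (upd X (pick c (insert v X)) ξ) S)
    have hψ : ∀ X S, 0 ≤ ψ X S := by
      intro X S
      show 0 ≤ if pick c (insert v X) = some v then
          (1 - q t v) * (1 - r X) * φ X (S * (1 - q t v))
        else rowE (q t) (fun ξ => φ (upd X (pick c (insert v X)) ξ) S)
      split_ifs
      · exact mul_nonneg (mul_nonneg hp0 (hr0 X)) (hφ _ _)
      · have := rowE_mono (hq t) (F := fun _ => 0)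
          (G := fun ξ => φ (upd X (pick c (insert v X)) ξ) S) (fun ξ => hφ _ _)
        rwa [rowE_const] at this
    refine le_trans ?_ (le_trans (ih ψ hψ) ?_)
    · rw [E_succ]
      refine E_mono hq t fun s hs => ?_
      by_cases hp : pick c (insert v s.X) = some v
      · have hX' : ∀ ξ, (K q w v t s ξ).X = s.X := fun ξ => by
          show (if pick c (insert v s.X) = some v then s.X
            else upd s.X (pick c (insert v s.X)) ξ) = _
          rw [if_pos hp]
        have hS' : ∀ ξ, (K q w v t s ξ).S = s.S * (1 - q t v) := fun ξ => by
          show (if pick c (insert v s.X) = some v then s.S * (1 - q t v) else s.S) = _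
          rw [if_pos hp]
        simp only [hX', hS', rowE_const]
        have hψe : ψ s.X s.S = (1 - q t v) * (1 - r s.X) * φ s.X (s.S * (1 - q t v)) :=
          if_pos hp
        rw [hψe]
        have key : H (s.S * (1 - q t v)) ≤ (1 - q t v) * (1 - r s.X) * H s.S := by
          show _ ≤ (1 - q t v) * (1 - (pick c s.X).elim 0 (q t)) * H s.S
          cases hpX : pick c s.X with
          | none => simpa using hH t s.S hs.h0 hs.h1
          | some b =>
            have hb : c b ≤ c v := pick_le hp (Finset.mem_insert_of_mem (pick_mem hpX))
            exact hH' t s.S b hs.h0 hs.h1 hb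
        calc φ s.X (s.S * (1 - q t v)) * H (s.S * (1 - q t v))
            ≤ φ s.X (s.S * (1 - q t v)) * ((1 - q t v) * (1 - r s.X) * H s.S) :=
              mul_le_mul_of_nonneg_left key (hφ _ _)
          _ = _ := by ring
      · have hX' : ∀ ξ, (K q w v t s ξ).X = upd s.X (pick c (insert v s.X)) ξ := fun ξ => by
          show (if pick c (insert v s.X) = some v then s.X
            else upd s.X (pick c (insert v s.X)) ξ) = _
          rw [if_neg hp]
        have hS' : ∀ ξ, (K q w v t s ξ).S = s.S := fun ξ => by
          show (if pick c (insert v s.X) = some v then s.S * (1 - q t v) else s.S) = _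
          rw [if_neg hp]
        have hψe : ψ s.X s.S = rowE (q t) (fun ξ => φ (upd s.X (pick c (insert v s.X)) ξ) s.S) :=
          if_neg hp
        simp only [hX', hS']
        rw [hψe, mul_comm (rowE _ _), ← rowE_smul]
        refine le_of_eq ?_
        congr 1
        funext ξ
        ring
    · rw [E_succ]
      refine E_mono hq t fun s hs => ?_
      by_cases hXY : s.X = s.Y
      · rw [if_pos hXY]
        by_cases hp : pick c (insert v s.X) = some v
        · have hX' : ∀ ξ, (K q w v t s ξ).X = s.X := fun ξ => by
            show (if pick c (insert v s.X) = some v then s.X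
              else upd s.X (pick c (insert v s.X)) ξ) = _
            rw [if_pos hp]
          have hS' : ∀ ξ, (K q w v t s ξ).S = s.S * (1 - q t v) := fun ξ => by
            show (if pick c (insert v s.X) = some v then s.S * (1 - q t v) else s.S) = _
            rw [if_pos hp]
          have hY' : ∀ ξ, (K q w v t s ξ).Y = upd s.X (pick c s.X) ξ := fun ξ => by
            show upd s.Y (pick c s.Y) ξ = _
            rw [hXY]
          simp only [hX', hS', hY']
          have hψe : ψ s.X s.S = (1 - q t v) * (1 - r s.X) * φ s.X (s.S * (1 - q t v)) :=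
            if_pos hp
          rw [hψe]
          have hval : (1 - r s.X) * (φ s.X (s.S * (1 - q t v)) * (s.S * (1 - q t v))) ≤
              rowE (q t) (fun ξ => if s.X = upd s.X (pick c s.X) ξ then
                φ s.X (s.S * (1 - q t v)) * (s.S * (1 - q t v)) else 0) := by
            show (1 - (pick c s.X).elim 0 (q t)) * _ ≤ _
            cases hpX : pick c s.X with
            | none =>
              simp only [upd_none, if_true, rowE_const]
              simp
            | some b =>
              have hm := rowE_coord (q t) b (fun x => if x then (0 : ℝ) else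
                φ s.X (s.S * (1 - q t v)) * (s.S * (1 - q t v)))
              simp only [if_true, Bool.false_eq_true, if_false, mul_zero, zero_add] at hm
              show (1 - q t b) * _ ≤ _
              rw [← hm]
              refine rowE_mono (hq t) fun ξ => ?_
              cases hb : ξ b
              · rw [upd_some, hb]; simp
              · simp only [if_true]
                split_ifs
                · exact mul_nonneg (hφ _ _) (mul_nonneg hs.h0 hp0)
                · exact le_refl _
          refine le_trans (le_of_eq ?_) hval
          ring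
        · obtain ⟨a, haX, hav, h1, h2⟩ := pick_other hp
          have hX' : ∀ ξ, (K q w v t s ξ).X = upd s.X (pick c (insert v s.X)) ξ := fun ξ => by
            show (if pick c (insert v s.X) = some v then s.X
              else upd s.X (pick c (insert v s.X)) ξ) = _
            rw [if_neg hp]
          have hS' : ∀ ξ, (K q w v t s ξ).S = s.S := fun ξ => by
            show (if pick c (insert v s.X) = some v then s.S * (1 - q t v) else s.S) = _
            rw [if_neg hp]
          have hY' : ∀ ξ, (K q w v t s ξ).Y = upd s.X (pick c (insert v s.X)) ξ := fun ξ => by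
            show upd s.Y (pick c s.Y) ξ = _
            rw [← hXY, h1, h2]
          have hψe : ψ s.X s.S =
              rowE (q t) (fun ξ => φ (upd s.X (pick c (insert v s.X)) ξ) s.S) := if_neg hp
          simp only [hX', hS', hY', if_true]
          rw [hψe, mul_comm (rowE _ _), ← rowE_smul]
          refine le_of_eq ?_
          congr 1
          funext ξ
          ring
      · rw [if_neg hXY]
        have := rowE_mono (hq t) (F := fun _ => 0)
          (G := fun ξ => if (K q w v t s ξ).X = (K q w v t s ξ).Y then
            φ (K q w v t s ξ).X (K q w v t s ξ).S * (K q w v t s ξ).S else 0) (fun ξ => by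
              split_ifs
              · exact mul_nonneg (hφ _ _) (inv_step hq t s ξ hs).h0
              · exact le_refl _)
        rwa [rowE_const] at this

end Pool.Agent.W991.Stoch
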