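import Pool.Agent.W991.Stoch.Row

/-!
# The best available vertex
-/

set_option autoImplicit false
set_option linter.unusedSectionVars false

open Finset

namespace Pool.Agent.W991.Stoch

variable {V : Type} [Fintype V] [DecidableEq V] [LinearOrder V]

/-- a vertex of `S` with the largest value of `c` (the largest such vertex in case of ties) -/
noncomputable def pick (c : V → ℝ) (S : Finset V) : Option V :=
  if h : S.Nonempty then
    some (ofLex ((S.image fun x => (toLex (c x, x) : ℝ ×ₗ V)).max' (h.image _))).2
  else none

lemma pick_eq_none {c : V → ℝ} {S : Finset V} : pick c S = none ↔ S = ∅ := by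
  unfold pick
  split_ifs with h
  · simp [h.ne_empty]
  · simpa using Finset.not_nonempty_iff_eq_empty.mp h

/-- the strict preference order -/
def Better (c : V → ℝ) (a x : V) : Prop := c x < c a ∨ (c x = c a ∧ x ≤ a)

lemma pick_iff {c : V → ℝ} {S : Finset V} {a : V} :
    pick c S = some a ↔ a ∈ S ∧ ∀ x ∈ S, Better c a x := by
  classical
  have main : ∀ h : S.Nonempty, ∀ b : V,
      (ofLex ((S.image fun x => (toLex (c x, x) : ℝ ×ₗ V)).max' (h.image _))).2 = b →
        b ∈ S ∧ ∀ x ∈ S, Better c b x := by
    intro h b hb
    have hm := Finset.max'_mem _ (h.image fun x => (toLex (c x, x) : ℝ ×ₗ V))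
    rw [Finset.mem_image] at hm
    obtain ⟨y, hy, hy2⟩ := hm
    have hyb : y = b := by
      rw [← hb, ← hy2]
      rfl
    subst hyb
    refine ⟨hy, fun x hx => ?_⟩
    have hle := Finset.le_max' (S.image fun x => (toLex (c x, x) : ℝ ×ₗ V)) (toLex (c x, x))
      (Finset.mem_image_of_mem _ hx)
    rw [← hy2] at hle
    rw [Prod.Lex.toLex_le_toLex] at hle
    exact hle
  constructor
  · intro h
    unfold pick at h
    split_ifs at h with hS
    exact main hS a (Option.some_injective _ h)
  · rintro ⟨ha, hb⟩
    have hS : S.Nonempty := ⟨a, ha⟩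
    unfold pick
    rw [dif_pos hS]
    obtain ⟨h1, h2⟩ := main hS _ rfl
    set b := (ofLex ((S.image fun x => (toLex (c x, x) : ℝ ×ₗ V)).max' (hS.image _))).2
    have h3 := h2 a ha
    have h4 := hb b h1
    congr 1
    rcases h3 with h3 | ⟨h3, h3'⟩
    · rcases h4 with h4 | ⟨h4, _⟩
      · exact absurd h3 (not_lt.mpr h4.le)
      · exact absurd h4 h3.ne'
    · rcases h4 with h4 | ⟨_, h4'⟩
      · exact absurd h3 h4.ne'
      · exact le_antisymm h4' h3'

lemma Better.le {c : V → ℝ} {a x : V} (h : Better c a x) : c x ≤ c a := by
  rcases h with h | h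
  · exact h.le
  · exact h.1.le

lemma pick_mem {c : V → ℝ} {S : Finset V} {a : V} (h : pick c S = some a) : a ∈ S :=
  (pick_iff.mp h).1

lemma pick_le {c : V → ℝ} {S : Finset V} {a x : V} (h : pick c S = some a) (hx : x ∈ S) :
    c x ≤ c a := ((pick_iff.mp h).2 x hx).le

lemma pick_sub {c : V → ℝ} {S T : Finset V} {a : V} (h : pick c S = some a) (ha : a ∈ T)
    (hT : T ⊆ S) : pick c T = some a :=
  pick_iff.mpr ⟨ha, fun x hx => (pick_iff.mp h).2 x (hT hx)⟩

lemma pick_congr {c c' : V → ℝ} {S : Finset V} (h : ∀ x ∈ S, c x = c' x) :
    pick c S = pick c' S := by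
  cases hp : pick c S with
  | none => rw [eq_comm, pick_eq_none]; exact pick_eq_none.mp hp
  | some a =>
    rw [eq_comm, pick_iff]
    obtain ⟨h1, h2⟩ := pick_iff.mp hp
    refine ⟨h1, fun x hx => ?_⟩
    have h3 := h2 x hx
    unfold Better at h3 ⊢
    rw [← h x hx, ← h a h1]
    exact h3

/-- the value of the best available vertex (`0` if there is none) -/
noncomputable def val (c : V → ℝ) (S : Finset V) : ℝ := (pick c S).elim 0 c

lemma val_ge {c : V → ℝ} {S : Finset V} {x : V} (hx : x ∈ S) : c x ≤ val c S := by
  unfold val
  cases hp : pick c S with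
  | none => rw [pick_eq_none] at hp; rw [hp] at hx; exact absurd hx (Finset.notMem_empty x)
  | some a => exact pick_le hp hx

lemma val_mono {c : V → ℝ} (hc : ∀ x, 0 ≤ c x) {S T : Finset V} (h : S ⊆ T) :
    val c S ≤ val c T := by
  unfold val
  cases hp : pick c S with
  | none =>
    cases hq : pick c T with
    | none => exact le_refl _
    | some b => exact hc b
  | some a =>
    have := val_ge (c := c) (h (pick_mem hp))
    exact this

lemma val_nonneg {c : V → ℝ} (hc : ∀ x, 0 ≤ c x) (S : Finset V) : 0 ≤ val c S := by
  unfold val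
  cases hp : pick c S with
  | none => exact le_refl _
  | some a => exact hc a

lemma val_congr {c c' : V → ℝ} {S : Finset V} (h : ∀ x ∈ S, c x = c' x) :
    val c S = val c' S := by
  unfold val
  rw [← pick_congr h]
  cases hp : pick c S with
  | none => rfl
  | some a => exact h a (pick_mem hp)

/-- the vertex `v` is chosen when everything else is worse -/
lemma pick_insert_eq {c : V → ℝ} {S : Finset V} {v : V} (h : val c S < c v) :
    pick c (insert v S) = some v := by
  cases hp : pick c (insert v S) with
  | none =>
    rw [pick_eq_none] at hp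
    exact absurd hp (Finset.insert_ne_empty v S)
  | some a =>
    have ha := pick_mem hp
    rw [Finset.mem_insert] at ha
    rcases ha with ha | ha
    · rw [ha]
    · have h1 := pick_le hp (Finset.mem_insert_self v S)
      have h2 := val_ge (c := c) ha
      linarith

/-- attempt at the vertex `o` with the row `ξ` of coins -/
def upd (S : Finset V) (o : Option V) (ξ : V → Bool) : Finset V :=
  match o with
  | none => S
  | some a => if ξ a then S.erase a else S

@[simp] lemma upd_none (S : Finset V) (ξ : V → Bool) : upd S none ξ = S := rfl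
lemma upd_some (S : Finset V) (a : V) (ξ : V → Bool) :
    upd S (some a) ξ = if ξ a then S.erase a else S := rfl

lemma upd_subset (S : Finset V) (o : Option V) (ξ : V → Bool) : upd S o ξ ⊆ S := by
  cases o with
  | none => exact Finset.Subset.refl _
  | some a =>
    rw [upd_some]
    split_ifs
    · exact Finset.erase_subset _ _
    · exact Finset.Subset.refl _

/-- the coupling keeps inclusions -/
lemma upd_mono {c : V → ℝ} {S T : Finset V} (h : S ⊆ T) (ξ : V → Bool) :
    upd S (pick c S) ξ ⊆ upd T (pick c T) ξ := by
  cases hT : pick c T with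
  | none =>
    rw [upd_none]
    exact (upd_subset _ _ _).trans h
  | some a =>
    by_cases ha : a ∈ S
    · rw [pick_sub hT ha h, upd_some, upd_some]
      split_ifs
      · exact Finset.erase_subset_erase _ h
      · exact h
    · rw [upd_some]
      split_ifs
      · intro x hx
        have hxS := upd_subset _ _ _ hx
        rw [Finset.mem_erase]
        refine ⟨?_, h hxS⟩
        rintro rfl
        exact ha hxS
      · exact (upd_subset _ _ _).trans h

lemma upd_update {S : Finset V} {o : Option V} {ξ : V → Bool} {v : V} {b : Bool}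
    (h : o ≠ some v) : upd S o (Function.update ξ v b) = upd S o ξ := by
  cases o with
  | none => rfl
  | some a =>
    have : a ≠ v := fun e => h (by rw [e])
    rw [upd_some, upd_some, Function.update_of_ne this]

end Pool.Agent.W991.Stoch
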