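import Mathlib

/-!
# Finite-horizon Markov chains driven by rows of independent coins
-/

set_option autoImplicit false

open Finset

namespace Pool.Agent.W991.Stoch

variable {V : Type} [Fintype V] [DecidableEq V]

/-- the weight of a row of coins -/
noncomputable def wtRow (q : V → ℝ) (ξ : V → Bool) : ℝ :=
  ∏ x, (if ξ x then q x else 1 - q x)

/-- expectation over a row of independent coins, the coin of `x` being `true` with
probability `q x` -/
noncomputable def rowE (q : V → ℝ) (F : (V → Bool) → ℝ) : ℝ :=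
  ∑ ξ : V → Bool, wtRow q ξ * F ξ

/-- all entries are probabilities -/
def Prb (q : V → ℝ) : Prop := ∀ x, 0 ≤ q x ∧ q x ≤ 1

lemma wtRow_nonneg {q : V → ℝ} (hq : Prb q) (ξ : V → Bool) : 0 ≤ wtRow q ξ := by
  unfold wtRow
  refine Finset.prod_nonneg fun x _ => ?_
  split_ifs
  · exact (hq x).1
  · linarith [(hq x).2]

lemma sum_wtRow (q : V → ℝ) : ∑ ξ : V → Bool, wtRow q ξ = 1 := by
  have h := Finset.prod_univ_sum (fun _ : V => (Finset.univ : Finset Bool))
    (fun x b => if b then q x else 1 - q x)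
  simp only [Fintype.piFinset_univ] at h
  unfold wtRow
  rw [← h]
  simp

lemma rowE_const (q : V → ℝ) (c : ℝ) : rowE q (fun _ => c) = c := by
  unfold rowE
  rw [← Finset.sum_mul, sum_wtRow, one_mul]

lemma rowE_add (q : V → ℝ) (F G : (V → Bool) → ℝ) :
    rowE q (fun ξ => F ξ + G ξ) = rowE q F + rowE q G := by
  unfold rowE
  rw [← Finset.sum_add_distrib]
  exact Finset.sum_congr rfl fun _ _ => by ring

lemma rowE_smul (q : V → ℝ) (c : ℝ) (F : (V → Bool) → ℝ) :
    rowE q (fun ξ => c * F ξ) = c * rowE q F := by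
  unfold rowE
  rw [Finset.mul_sum]
  exact Finset.sum_congr rfl fun _ _ => by ring

lemma rowE_mono {q : V → ℝ} (hq : Prb q) {F G : (V → Bool) → ℝ} (h : ∀ ξ, F ξ ≤ G ξ) :
    rowE q F ≤ rowE q G := by
  unfold rowE
  exact Finset.sum_le_sum fun ξ _ => mul_le_mul_of_nonneg_left (h ξ) (wtRow_nonneg hq ξ)

/-- resampling of one coin -/
lemma rowE_resample (q : V → ℝ) (x : V) (F : (V → Bool) → ℝ) :
    rowE q F = rowE q (fun ξ => q x * F (Function.update ξ x true) +
      (1 - q x) * F (Function.update ξ x false)) := by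
  classical
  have key : ∀ H : (V → Bool) → ℝ, ∑ ξ : V → Bool, wtRow q ξ * H ξ =
      ∑ η : {y : V // y ≠ x} → Bool, ∑ b : Bool,
        wtRow q ((Equiv.funSplitAt x Bool).symm (b, η)) *
          H ((Equiv.funSplitAt x Bool).symm (b, η)) := by
    intro H
    rw [← (Equiv.funSplitAt x Bool).symm.sum_comp, Fintype.sum_prod_type_right]
  have hw : ∀ (b : Bool) (η : {y : V // y ≠ x} → Bool),
      wtRow q ((Equiv.funSplitAt x Bool).symm (b, η)) =
        (if b then q x else 1 - q x) * ∏ y : {y : V // y ≠ x}, (if η y then q y else 1 - q y) := by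
    intro b η
    unfold wtRow
    rw [Fintype.prod_eq_mul_prod_subtype_ne _ x]
    congr 1
    · simp [Equiv.funSplitAt, Equiv.piSplitAt]
    · refine Finset.prod_congr rfl fun y _ => ?_
      have : ((Equiv.funSplitAt x Bool).symm (b, η)) (y : V) = η y := by
        simp [Equiv.funSplitAt, Equiv.piSplitAt, y.2]
      rw [this]
  have hu : ∀ (b c : Bool) (η : {y : V // y ≠ x} → Bool),
      Function.update ((Equiv.funSplitAt x Bool).symm (b, η)) x c =
        (Equiv.funSplitAt x Bool).symm (c, η) := by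
    intro b c η
    funext y
    by_cases hy : y = x
    · subst hy
      simp [Equiv.funSplitAt, Equiv.piSplitAt]
    · simp [Function.update_of_ne hy, Equiv.funSplitAt, Equiv.piSplitAt, hy]
  unfold rowE
  rw [key, key]
  refine Finset.sum_congr rfl fun η _ => ?_
  simp only [Fintype.sum_bool, hw, hu]
  simp only [if_true, Bool.false_eq_true, if_false]
  ring

lemma rowE_coord (q : V → ℝ) (x : V) (g : Bool → ℝ) :
    rowE q (fun ξ => g (ξ x)) = q x * g true + (1 - q x) * g false := by
  rw [rowE_resample q x]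
  simp only [Function.update_self]
  rw [rowE_const]

/-- a coin is independent of everything that does not look at it -/
lemma rowE_indep (q : V → ℝ) (x : V) (g : Bool → ℝ) (H : (V → Bool) → ℝ)
    (hH : ∀ ξ b, H (Function.update ξ x b) = H ξ) :
    rowE q (fun ξ => g (ξ x) * H ξ) = (q x * g true + (1 - q x) * g false) * rowE q H := by
  rw [rowE_resample q x]
  simp only [Function.update_self, hH]
  rw [← rowE_smul]
  congr 1
  funext ξ
  ring

section chain

variable {σ τ : Type}

/-- expectation of `f` at time `t` for the chain with transitions `K` from the state `z` -/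
noncomputable def Ex (q : ℕ → V → ℝ) (K : ℕ → σ → (V → Bool) → σ) (z : σ) :
    ℕ → (σ → ℝ) → ℝ
  | 0, f => f z
  | t + 1, f => Ex q K z t (fun z' => rowE (q t) (fun ξ => f (K t z' ξ)))

variable (q : ℕ → V → ℝ) (K : ℕ → σ → (V → Bool) → σ) (z : σ)

@[simp] lemma Ex_zero (f : σ → ℝ) : Ex q K z 0 f = f z := rfl

lemma Ex_succ (t : ℕ) (f : σ → ℝ) :
    Ex q K z (t + 1) f = Ex q K z t (fun z' => rowE (q t) (fun ξ => f (K t z' ξ))) := rfl

lemma Ex_const (t : ℕ) (c : ℝ) : Ex q K z t (fun _ => c) = c := by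
  induction t with
  | zero => rfl
  | succ t ih =>
    rw [Ex_succ]
    simp only [rowE_const]
    exact ih

lemma Ex_add (t : ℕ) (f g : σ → ℝ) :
    Ex q K z t (fun s => f s + g s) = Ex q K z t f + Ex q K z t g := by
  induction t generalizing f g with
  | zero => rfl
  | succ t ih =>
    rw [Ex_succ, Ex_succ, Ex_succ, ← ih]
    congr 1
    funext s
    exact rowE_add _ _ _

lemma Ex_smul (t : ℕ) (c : ℝ) (f : σ → ℝ) :
    Ex q K z t (fun s => c * f s) = c * Ex q K z t f := by
  induction t generalizing f with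
  | zero => rfl
  | succ t ih =>
    rw [Ex_succ, Ex_succ, ← ih]
    congr 1
    funext s
    exact rowE_smul _ _ _

lemma Ex_neg (t : ℕ) (f : σ → ℝ) :
    Ex q K z t (fun s => - f s) = - Ex q K z t f := by
  have h := Ex_smul q K z t (-1) f
  have h2 : (fun s => -1 * f s) = fun s => - f s := by funext s; ring
  rw [h2] at h
  rw [h]; ring

lemma Ex_sub (t : ℕ) (f g : σ → ℝ) :
    Ex q K z t (fun s => f s - g s) = Ex q K z t f - Ex q K z t g := by
  have h := Ex_add q K z t f (fun s => - g s)
  rw [Ex_neg] at h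
  have h2 : (fun s => f s + - g s) = fun s => f s - g s := by funext s; ring
  rw [h2] at h
  rw [h]; ring

lemma Ex_sum {ι : Type} (s : Finset ι) (t : ℕ) (f : ι → σ → ℝ) :
    Ex q K z t (fun y => ∑ i ∈ s, f i y) = ∑ i ∈ s, Ex q K z t (f i) := by
  classical
  induction s using Finset.induction_on with
  | empty => simpa using Ex_const q K z t 0
  | insert a s ha ih =>
    simp only [Finset.sum_insert ha]
    rw [Ex_add, ih]

/-- monotonicity, only reachable states matter -/
lemma Ex_mono {Inv : σ → Prop} (hq : ∀ t, Prb (q t)) (h0 : Inv z)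
    (hK : ∀ t s ξ, Inv s → Inv (K t s ξ)) (t : ℕ) {f g : σ → ℝ}
    (h : ∀ s, Inv s → f s ≤ g s) : Ex q K z t f ≤ Ex q K z t g := by
  induction t generalizing f g with
  | zero => exact h z h0
  | succ t ih =>
    rw [Ex_succ, Ex_succ]
    exact ih fun s hs => rowE_mono (hq t) fun ξ => h _ (hK t s ξ hs)

lemma Ex_congr {Inv : σ → Prop} (hq : ∀ t, Prb (q t)) (h0 : Inv z)
    (hK : ∀ t s ξ, Inv s → Inv (K t s ξ)) (t : ℕ) {f g : σ → ℝ}
    (h : ∀ s, Inv s → f s = g s) : Ex q K z t f = Ex q K z t g :=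
  le_antisymm (Ex_mono q K z hq h0 hK t fun s hs => (h s hs).le)
    (Ex_mono q K z hq h0 hK t fun s hs => (h s hs).ge)

/-- marginals -/
lemma Ex_map (K' : ℕ → τ → (V → Bool) → τ) (π : σ → τ)
    (h : ∀ t s ξ, π (K t s ξ) = K' t (π s) ξ) (t : ℕ) (f : τ → ℝ) :
    Ex q K z t (fun s => f (π s)) = Ex q K' (π z) t f := by
  induction t generalizing f with
  | zero => rfl
  | succ t ih =>
    rw [Ex_succ, Ex_succ, ← ih]
    simp only [h]

/-- decomposition after the first step -/
lemma Ex_front (t : ℕ) (f : σ → ℝ) :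
    Ex q K z (t + 1) f =
      rowE (q 0) (fun ξ => Ex (fun s => q (s + 1)) (fun s => K (s + 1)) (K 0 z ξ) t f) := by
  induction t generalizing f with
  | zero => rfl
  | succ t ih =>
    rw [Ex_succ, ih]
    rfl

end chain

end Pool.Agent.W991.Stoch
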